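import Pool.Agent.Helper91.NX2.AlArithCore
import Pool.Agent.Helper52.NX2.ArTop

/-!
# Project NX2, module A24: alignment of frequencies along progressions
-/

set_option autoImplicit false

open Finset
open scoped BigOperators ComplexConjugate

namespace Pool.Agent.Helper67.NX2

open Pool.Agent.Helper57.NX

noncomputable section

theorem al_arith (m : ℕ) (c : Fin (m + 1) → ℝ) (hc : Ex c) (d : ℕ) (hd : c (Fin.last m) = d)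
    (s : ℝ) (hs0 : 0 < s) (hs : s < d) (hT : ∀ ε : ℝ, 0 < ε → TopPm m c s ε)
    (ε : ℝ) (hε : 0 < ε) : ∃ x0 : ℝ, 0 < x0 ∧ ∃ C : ℕ, ∃ σ : ℝ, 0 < σ ∧ ∃ D0 : ℝ,
    ∀ (S : Sys (m + 1)) (N : ℕ) [NeZero N] (lam : ℕ), D0 ≤ S.D → IG S c N x0 lam →
    ∀ δ : ℝ, S.D ^ (-σ) ≤ δ → δ ≤ 1 / 2 → (lam : ℝ) ≤ δ⁻¹ →
    ∀ (p : ℕ) [NeZero p], p.Prime → N = S.Q * p → ∀ q : ℕ, 1 ≤ q → (q : ℝ) ≤ δ⁻¹ →
    ∀ X : ℕ, 1 ≤ X → S.D ^ (s - σ) ≤ (X : ℝ) →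
    ∀ q0 : ℕ, 1 ≤ q0 → (X : ℝ) * q0 * (S.Q * q) ≤ S.P (Fin.last m) * S.D ^ (-ε) →
    ∀ (f0 : ZMod N → ℂ) (f : Fin m → ZMod N → ℂ), Adm δ⁻¹ S.Q f0 → (∀ i, Adm δ⁻¹ S.Q (f i)) →
    ∀ (r : ZMod p) (cc : ℕ → ℂ) (φ : ℕ → ℝ), (∀ j, ‖cc j‖ ≤ 1) →
    δ ≤ ‖form S c 1 f0 (Fin.snoc (α := fun _ => ZMod N → ℂ) f
      (blk S.Q fun y : ZMod p => bphase X r cc φ (y * (q : ZMod p)⁻¹)))‖ →
    ∃ (cc' : ℕ → ℂ) (θ : ℕ → ℝ), (∀ j, cc' j = cc j ∨ cc' j = 0) ∧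
      (∀ j, cc' j ≠ 0 → dint (φ j - θ (j / q0)) ≤ δ⁻¹ ^ C / X) ∧
      δ ^ C ≤ ‖form S c 1 f0 (Fin.snoc (α := fun _ => ZMod N → ℂ) f
        (blk S.Q fun y : ZMod p => bphase X r cc' φ (y * (q : ZMod p)⁻¹)))‖ :=
  Pool.Agent.Helper91.NX2.al_arith_core m c s ε hs0 hε (ar_top m c hc d hd s hs0 hs hT ε hε)

end

end Pool.Agent.Helper67.NX2
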