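import Pool.Agent.Helper67.NX2.Defs
import Pool.Agent.Helper30.NX.LinForms

/-!
# Project NX2, module A20: exact linear forms
-/

set_option autoImplicit false

open Finset
open scoped BigOperators ComplexConjugate

namespace Pool.Agent.Helper67.NX2

open Pool.Agent.Helper57.NX

noncomputable section

namespace LFQ

variable {N : ℕ} [NeZero N]

/-- the sign of a slope -/
def sn (a : ℤ) : ℤ := if 0 < a then 1 else -1

theorem sn_mul (a : ℤ) : a * sn a = a.natAbs := by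
  unfold sn
  split_ifs with h
  · rw [mul_one, Int.natAbs_of_nonneg h.le]
  · rw [mul_neg, mul_one, Int.ofNat_natAbs_of_nonpos (not_lt.1 h)]

theorem sn_natAbs (a : ℤ) : sn a * (a.natAbs : ℤ) = a := by
  unfold sn
  split_ifs with h
  · rw [one_mul, Int.natAbs_of_nonneg h.le]
  · rw [Int.ofNat_natAbs_of_nonpos (not_lt.1 h)]; ring

/-- averages over boxes of displacements with signs are box norms in a fixed direction -/
theorem W_box {r : ℕ} (fs : ZMod N → ℂ) (st H : ℕ) (α : Fin r → ℤ) :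
    (𝔼 l ∈ boxset r H, 𝔼 l' ∈ boxset r H,
      LF.W fs (fun ω => -(st * ∑ i, sn (α i) * ((sel ω l l' i : ℕ) : ℤ))))
      = 𝔼 l ∈ boxset r H, 𝔼 l' ∈ boxset r H, 𝔼 x, cubeq st fs l l' x := by
  classical
  have hsel : ∀ (ω : Fin r → Bool) (l l' : Fin r → ℕ),
      sel ω (fun i => if 0 < α i then H - 1 - l i else l i)
        (fun i => if 0 < α i then H - 1 - l' i else l' i)
      = fun i => if 0 < α i then H - 1 - sel ω l l' i else sel ω l l' i := by
    intro ω l l'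
    funext i
    by_cases h : ω i = true
    · simp only [sel, h, if_true]
    · simp only [sel, h, if_false, Bool.false_eq_true]
  unfold boxset
  rw [← LF.expect_pi_refl (fun _ => H) (fun i => 0 < α i)]
  refine Finset.expect_congr rfl fun l hl => ?_
  rw [← LF.expect_pi_refl (fun _ => H) (fun i => 0 < α i)]
  refine Finset.expect_congr rfl fun l' hl' => ?_
  rw [← LF.W_shift fs _ (st * ∑ i, if 0 < α i then ((H - 1 : ℕ) : ℤ) else 0)]
  unfold LF.W cubeq tot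
  refine Finset.expect_congr rfl fun x _ => Finset.prod_congr rfl fun ω _ => ?_
  congr 2
  congr 1
  have key : (-(st * ∑ i, sn (α i) * ((sel ω (fun i => if 0 < α i then H - 1 - l i else l i)
        (fun i => if 0 < α i then H - 1 - l' i else l' i) i : ℕ) : ℤ)) +
        st * ∑ i, if 0 < α i then ((H - 1 : ℕ) : ℤ) else 0 : ℤ)
      = ((st * ∑ i, sel ω l l' i : ℕ) : ℤ) := by
    rw [hsel, neg_add_eq_sub, ← mul_sub, ← Finset.sum_sub_distrib]
    push_cast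
    congr 1
    refine Finset.sum_congr rfl fun i _ => ?_
    have hlt : sel ω l l' i < H := by
      unfold sel
      split_ifs
      · exact Finset.mem_range.1 (Fintype.mem_piFinset.1 hl' i)
      · exact Finset.mem_range.1 (Fintype.mem_piFinset.1 hl i)
    unfold sn
    split_ifs with h
    · omega
    · push_cast
      ring
  refine (congrArg (Int.cast : ℤ → ZMod N) key).trans ?_
  push_cast
  rfl

end LFQ

open LFQ in
theorem lin_forms' (r n : ℕ) (hr : 1 ≤ r) : ∃ n' : ℕ, ∀ (N : ℕ) [NeZero N] (δ : ℝ) (K Q : ℕ)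
    (α β : Fin r → ℤ) (fs : ZMod N → ℂ) (f : Fin r → ZMod N → ℂ), 0 < δ → δ ≤ 1 / 2 →
    (∀ x, ‖fs x‖ ≤ 1) → (∀ j x, ‖f j x‖ ≤ 1) → (∀ j, α j ≠ 0 ∧ |(α j : ℝ)| ≤ δ⁻¹ ^ n) →
    δ⁻¹ ^ n' ≤ K →
    δ ^ n ≤ ‖𝔼 k ∈ range K, 𝔼 x, fs x * ∏ j, f j (x + ((Q * (α j * k + β j) : ℤ) : ZMod N))‖ →
    ∃ q : ℕ, 1 ≤ q ∧ (q : ℝ) ≤ δ⁻¹ ^ n' ∧ ∀ H : ℕ, 1 ≤ H → (H : ℝ) ≤ δ ^ n' * K →
      δ ^ n' ≤ Boxq (Q * q) r H fs := by
  classical
  obtain ⟨n', hn'⟩ : ∃ n' : ℕ, n' = n * r + n + r + 4 + (n + 1) * 2 ^ r := ⟨_, rfl⟩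
  refine ⟨n', ?_⟩
  intro N _ δ K Q α β fs f hδ0 hδ hfs hf hα hK hform
  have hδ1 : δ ≤ 1 := by linarith
  have hinv : 0 < δ⁻¹ := inv_pos.2 hδ0
  have hinv1 : 1 ≤ δ⁻¹ := (one_le_inv₀ hδ0).2 hδ1
  have hK0 : (0 : ℝ) < K := (pow_pos hinv _).trans_le hK
  have hKn : 0 < K := by exact_mod_cast hK0
  obtain ⟨q, hq⟩ : ∃ q : ℕ, q = ∏ j, (α j).natAbs := ⟨_, rfl⟩
  have hab : ∀ j, 1 ≤ (α j).natAbs := fun j => Int.natAbs_pos.2 (hα j).1
  have hq1 : 1 ≤ q := by
    rw [hq]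
    exact Nat.one_le_iff_ne_zero.2 (Finset.prod_ne_zero_iff.2 fun j _ => by have := hab j; omega)
  have hqb : (q : ℝ) ≤ δ⁻¹ ^ (n * r) := by
    rw [hq, Nat.cast_prod]
    calc ∏ j, (((α j).natAbs : ℕ) : ℝ) ≤ ∏ _j : Fin r, δ⁻¹ ^ n := by
          refine Finset.prod_le_prod (fun _ _ => Nat.cast_nonneg _) fun j _ => ?_
          rw [Nat.cast_natAbs, Int.cast_abs]
          exact (hα j).2
      _ = δ⁻¹ ^ (n * r) := by
          rw [Finset.prod_const, Finset.card_univ, Fintype.card_fin, ← pow_mul]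
  refine ⟨q, hq1, hqb.trans (pow_le_pow_right₀ hinv1 (by omega)), ?_⟩
  intro H hH hHb
  -- the steps
  have hdvd : ∀ j, (α j).natAbs ∣ q := fun j => by
    rw [hq]; exact Finset.dvd_prod_of_mem _ (Finset.mem_univ j)
  obtain ⟨e, he⟩ : ∃ e : Fin r → ℕ, ∀ j, (α j).natAbs * e j = q :=
    ⟨fun j => q / (α j).natAbs, fun j => Nat.mul_div_cancel' (hdvd j)⟩
  have heq : ∀ j, e j ≤ q := fun j => by
    calc e j = 1 * e j := (one_mul _).symm
      _ ≤ (α j).natAbs * e j := Nat.mul_le_mul_right _ (hab j)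
      _ = q := he j
  obtain ⟨G, hGdef⟩ : ∃ G : ℕ → ℂ, G = fun k : ℕ => 𝔼 x : ZMod N,
    fs x * ∏ j, f j (x + ((Q * (α j * k + β j) : ℤ) : ZMod N)) := ⟨_, rfl⟩
  obtain ⟨L, hLdef⟩ : ∃ L : Finset (Fin r → ℕ), L = Fintype.piFinset (fun _ => range H) := ⟨_, rfl⟩
  have hL : L.Nonempty := by
    rw [hLdef]
    exact ⟨fun _ => 0, Fintype.mem_piFinset.2 fun i => Finset.mem_range.2 hH⟩
  have hG : ∀ k, ‖G k‖ ≤ 1 := by
    intro k
    rw [hGdef]
    refine (RCLike.norm_expect_le (K := ℂ)).trans (Finset.expect_le Finset.univ_nonempty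
      fun x _ => ?_)
    rw [norm_mul, norm_prod]
    exact mul_le_one₀ (hfs x) (Finset.prod_nonneg fun _ _ => norm_nonneg _)
      (Finset.prod_le_one (fun _ _ => norm_nonneg _) fun j _ => hf j _)
  have h1 := LF.avg_avg L hL (fun l => ∑ i, e i * l i) (r * (q * H)) (fun l hl => by
    push_cast
    calc ∑ i, ((e i : ℝ) * l i) ≤ ∑ _i : Fin r, ((q : ℝ) * H) := by
          refine Finset.sum_le_sum fun i _ => ?_
          rw [hLdef] at hl
          have h2 := Finset.mem_range.1 (Fintype.mem_piFinset.1 hl i)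
          have h3 : (l i : ℝ) ≤ H := by exact_mod_cast h2.le
          have h4 : (e i : ℝ) ≤ q := by exact_mod_cast heq i
          exact mul_le_mul h4 h3 (Nat.cast_nonneg _) (Nat.cast_nonneg _)
      _ = r * (q * H) := by
          rw [Finset.sum_const, nsmul_eq_mul, Finset.card_univ, Fintype.card_fin]) G hG K hKn
  have herr : 2 * (r * (q * H)) / K ≤ δ ^ (n + 1) := by
    rw [div_le_iff₀ hK0]
    have h2 : (q : ℝ) * H ≤ δ⁻¹ ^ (n * r) * (δ ^ n' * K) :=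
      mul_le_mul hqb hHb (Nat.cast_nonneg _) (by positivity)
    have h3 : δ⁻¹ ^ (n * r) * (δ ^ n' * K) = δ ^ (n + r + 4 + (n + 1) * 2 ^ r) * K := by
      have : n' = n * r + (n + r + 4 + (n + 1) * 2 ^ r) := by rw [hn']; ring
      rw [this, pow_add, inv_pow]
      field_simp
    rw [h3] at h2
    have hr2 : (r : ℝ) ≤ 2 ^ r := by exact_mod_cast Nat.lt_two_pow_self.le
    have h4 : (2 * r : ℝ) * δ ^ (n + r + 4 + (n + 1) * 2 ^ r) ≤ δ ^ (n + 1) := by
      refine LF.absorb hδ0 hδ _ (r + 1) (n + 1) _ ?_ (by omega)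
      rw [pow_add]; linarith
    calc (2 : ℝ) * (r * (q * H)) = 2 * r * (q * H) := by ring
      _ ≤ 2 * r * (δ ^ (n + r + 4 + (n + 1) * 2 ^ r) * K) :=
          mul_le_mul_of_nonneg_left h2 (by positivity)
      _ = (2 * r : ℝ) * δ ^ (n + r + 4 + (n + 1) * 2 ^ r) * K := by ring
      _ ≤ δ ^ (n + 1) * K := mul_le_mul_of_nonneg_right h4 hK0.le
  have hhalf : δ ^ (n + 1) ≤ δ ^ n / 2 := by
    rw [pow_succ]
    have := pow_pos hδ0 n
    nlinarith
  have h2 : δ ^ (n + 1) ≤ ‖𝔼 k ∈ range K, 𝔼 l ∈ L, G (k + ∑ i, e i * l i)‖ := by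
    have h3 := norm_sub_norm_le (𝔼 k ∈ range K, G k) (𝔼 k ∈ range K, 𝔼 l ∈ L,
      G (k + ∑ i, e i * l i))
    have h4 : δ ^ n ≤ ‖𝔼 k ∈ range K, G k‖ := by rw [hGdef]; exact hform
    linarith
  obtain ⟨k, -, h3⟩ := LF.exists_of_le_norm_expect (range K)
    (Finset.nonempty_range_iff.2 hKn.ne') _ _ h2
  -- translate
  obtain ⟨Lam, hLam⟩ : ∃ Lam : (Fin r → ℕ) → ℤ, Lam = fun l =>
    ((Q * q : ℕ) : ℤ) * ∑ i, sn (α i) * ((l i : ℕ) : ℤ) := ⟨_, rfl⟩
  obtain ⟨v, hv⟩ : ∃ v : Fin r → (Fin r → ℕ) → ℤ, v = fun j l =>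
    Q * (α j * k + β j) + ∑ i ∈ univ.erase j, (Q * (α j * e i) - (Q * q : ℕ) * sn (α i)) * l i :=
    ⟨_, rfl⟩
  have hkey : ∀ (j : Fin r) (l : Fin r → ℕ),
      -Lam l + Q * (α j * ((k + ∑ i, e i * l i : ℕ) : ℤ) + β j) = v j l := by
    intro j l
    have h0 : ∑ i ∈ univ.erase j, ((Q : ℤ) * (α j * e i) - (Q * q : ℕ) * sn (α i)) * l i
        = ∑ i, ((Q : ℤ) * (α j * e i) - (Q * q : ℕ) * sn (α i)) * l i := by
      rw [Finset.sum_erase]
      have h5 : (α j) * (e j : ℤ) = q * sn (α j) := by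
        have h6 : ((α j).natAbs : ℤ) * (e j : ℤ) = q := by exact_mod_cast he j
        calc α j * (e j : ℤ) = sn (α j) * ((α j).natAbs : ℤ) * (e j : ℤ) := by rw [sn_natAbs]
          _ = sn (α j) * (((α j).natAbs : ℤ) * (e j : ℤ)) := by ring
          _ = q * sn (α j) := by rw [h6]; ring
      rw [h5]
      push_cast
      ring
    rw [hv, hLam]
    dsimp only
    rw [h0]
    push_cast
    have h7 : ∑ i, ((Q : ℤ) * (α j * e i) - (Q : ℤ) * q * sn (α i)) * (l i : ℤ)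
        = Q * α j * ∑ i, (e i : ℤ) * l i - Q * q * ∑ i, sn (α i) * (l i : ℤ) := by
      rw [Finset.mul_sum, Finset.mul_sum, ← Finset.sum_sub_distrib]
      exact Finset.sum_congr rfl fun i _ => by ring
    rw [h7]
    ring
  have h5 : δ ^ (n + 1) ≤ ‖𝔼 l ∈ L, 𝔼 x : ZMod N,
      fs (x + ((-Lam l : ℤ) : ZMod N)) * ∏ j, f j (x + (v j l : ZMod N))‖ := by
    refine h3.trans (le_of_eq ?_)
    congr 1
    refine Finset.expect_congr rfl fun l _ => ?_
    rw [hGdef]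
    dsimp only
    rw [← expect_shift (fun x : ZMod N => fs x *
      ∏ j, f j (x + ((Q * (α j * ((k + ∑ i, e i * l i : ℕ) : ℤ) + β j) : ℤ) : ZMod N)))
      ((-Lam l : ℤ) : ZMod N)]
    refine Finset.expect_congr rfl fun x _ => ?_
    congr 1
    refine Finset.prod_congr rfl fun j _ => ?_
    congr 1
    rw [← hkey j l, Int.cast_add, add_assoc]
  rw [Finset.expect_comm] at h5
  have h6 : δ ^ (n + 1) ≤ 𝔼 x : ZMod N, ‖𝔼 l ∈ L,
      fs (x + ((-Lam l : ℤ) : ZMod N)) * ∏ j, f j (x + (v j l : ZMod N))‖ :=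
    h5.trans (RCLike.norm_expect_le (K := ℂ))
  have h7 : (δ ^ (n + 1)) ^ (2 ^ r) ≤ 𝔼 x : ZMod N, ‖𝔼 l ∈ L,
      fs (x + ((-Lam l : ℤ) : ZMod N)) * ∏ j, f j (x + (v j l : ZMod N))‖ ^ (2 ^ r) :=
    (pow_le_pow_left₀ (by positivity) h6 _).trans
      (gcs_pow_expect_le _ _ _ fun _ _ => norm_nonneg _)
  have h8 : ∀ x : ZMod N, ‖𝔼 l ∈ L,
      fs (x + ((-Lam l : ℤ) : ZMod N)) * ∏ j, f j (x + (v j l : ZMod N))‖ ^ (2 ^ r)
      ≤ (𝔼 l ∈ L, 𝔼 l' ∈ L, ∏ ω : Fin r → Bool,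
        cjj ω (fs (x + ((-Lam (sel ω l l') : ℤ) : ZMod N)))).re := by
    intro x
    rw [hLdef]
    refine gcs hr (fun _ => range H) (fun i => Finset.nonempty_range_iff.2 (by omega))
      (fun l => fs (x + ((-Lam l : ℤ) : ZMod N))) (fun j l => f j (x + (v j l : ZMod N)))
      (fun j l => hf j _) ?_
    intro j a a' haa
    have h9 : v j a = v j a' := by
      rw [hv]
      dsimp only
      congr 1
      refine Finset.sum_congr rfl fun i hi => ?_
      rw [haa i (Finset.ne_of_mem_erase hi)]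
    rw [h9]
  have h9 : (δ ^ (n + 1)) ^ (2 ^ r) ≤ Boxq (Q * q) r H fs := by
    refine (h7.trans (Finset.expect_le_expect fun x _ => h8 x)).trans (le_of_eq ?_)
    rw [← gcs_re_expect]
    unfold Boxq
    rw [← W_box fs (Q * q) H α]
    congr 1
    rw [Finset.expect_comm, hLdef]
    refine Finset.expect_congr rfl fun l _ => ?_
    rw [Finset.expect_comm]
    refine Finset.expect_congr rfl fun l' _ => ?_
    rw [hLam]
    rfl
  refine le_trans ?_ h9
  rw [← pow_mul]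
  exact pow_le_pow_of_le_one hδ0.le hδ1 (by rw [hn']; omega)

end

end Pool.Agent.Helper67.NX2
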