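import Pool.Agent.Helper91.NX2.GncAux
import Pool.Agent.Helper91.NX2.LinForms
import Pool.Agent.Helper82.NX2.Fib

/-!
# Project NX2, module A21: the generalised von Neumann theorem, natural top exponent,
arithmetic version
-/

set_option autoImplicit false

open Finset
open scoped BigOperators ComplexConjugate

namespace Pool.Agent.Helper91.NX2

open Pool.Agent.Helper57.NX
open Pool.Agent.Helper67.NX2
open Pool.Agent.Helper82.NX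

noncomputable section

/-- the slope of a typed element with exponent one -/
theorem slope {m : ℕ} (S : Sys m) (c : Fin m → ℝ) (δ : ℝ) (n n' M : ℕ) (Y lam1 w Err : ℝ)
    (p : Phi m) (hD : 1 ≤ S.D) (hρ0 : 0 ≤ S.ρ) (hTp : Tp S c δ n 1 Y 1 lam1 w p)
    (hBd : Bd M n' p) (u T : ℕ) (hu : S.D ≤ u) (huY : (u : ℝ) + T ≤ Y) (Q : ℕ) (α β : ℤ)
    (h1 : |((ev (S.a c) p u - Q * (α * u + β) : ℤ) : ℝ)| ≤ Err)
    (h2 : |((ev (S.a c) p (u + T) - Q * (α * (u + T : ℕ) + β) : ℤ) : ℝ)| ≤ Err) :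
    ∃ Λ : ℝ, δ ^ n * lam1 ≤ |Λ| ∧ |Λ| ≤ δ⁻¹ ^ n * lam1 ∧
      |(α : ℝ) * (Q * T) - T * (Λ / S.D)| ≤ 2 * Err + 2 * (n' * 2 ^ n') +
        T * (δ⁻¹ ^ n * lam1 * w / S.D) := by
  obtain ⟨Λ, hΛ1, hΛ2, hTyp⟩ := hTp
  refine ⟨Λ, hΛ1, hΛ2, ?_⟩
  have hD0 : 0 < S.D := by linarith
  have hT0 : (0 : ℝ) ≤ T := Nat.cast_nonneg _
  have hmdl : ∀ y : ℝ, mdl S 1 1 y = 1 / S.D := by
    intro y
    unfold mdl ff
    simp
  have e1 := ev_jet S c M n' p hBd u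
  have e2 := ev_jet S c M n' p hBd (u + T)
  have hmv := (convex_Icc (u : ℝ) (u + T)).norm_image_sub_le_of_norm_hasDerivWithin_le
    (f := fun y => jet S c 0 p y - y * (Λ / S.D)) (f' := fun y => jet S c 1 p y - 1 * (Λ / S.D))
    (C := δ⁻¹ ^ n * lam1 * w / S.D) (x := (u : ℝ)) (y := (u : ℝ) + T)
    (fun z hz => ((jet_hasDeriv S c hD0 hρ0 0 p z (by linarith [hz.1])).sub
      ((hasDerivAt_id z).mul_const (Λ / S.D))).hasDerivWithinAt)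
    (fun z hz => by
      rw [Real.norm_eq_abs]
      have := hTyp 1 le_rfl z (hu.trans hz.1) (hz.2.trans huY)
      rw [hmdl, pow_one] at this
      refine le_trans (le_of_eq ?_) this
      congr 1
      ring)
    ⟨le_rfl, by linarith⟩ ⟨by linarith, le_rfl⟩
  rw [Real.norm_eq_abs, Real.norm_eq_abs, add_sub_cancel_left, abs_of_nonneg hT0] at hmv
  have e3 : jet S c 0 p ((u : ℝ) + T) - ((u : ℝ) + T) * (Λ / S.D) -
      (jet S c 0 p u - u * (Λ / S.D)) = jet S c 0 p ((u : ℝ) + T) - jet S c 0 p u - T * (Λ / S.D) := by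
    ring
  rw [e3] at hmv
  push_cast at h1 h2 e1 e2
  have key : (α : ℝ) * (Q * T) - T * (Λ / S.D) =
      (jet S c 0 p ((u : ℝ) + T) - jet S c 0 p u - T * (Λ / S.D))
      + ((ev (S.a c) p (u + T) : ℝ) - jet S c 0 p ((u : ℝ) + T))
      - ((ev (S.a c) p u : ℝ) - jet S c 0 p u)
      - ((ev (S.a c) p (u + T) : ℝ) - Q * (α * ((u : ℝ) + T) + β))
      + ((ev (S.a c) p u : ℝ) - Q * (α * u + β)) := by ring
  rw [key]
  rw [abs_le] at *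
  constructor <;> linarith [hmv.1, hmv.2, e1.1, e1.2, e2.1, e2.2, h1.1, h1.2, h2.1, h2.2]

theorem Boxq_pow {N : ℕ} [NeZero N] (st k X : ℕ) (hX : 1 ≤ X) {f : ZMod N → ℂ}
    (hf : ∀ x, ‖f x‖ ≤ 1) {δ : ℝ} (h0 : 0 < δ) (n j : ℕ) (h : δ ^ n ≤ Boxq st k X f) :
    δ ^ (n * 2 ^ j) ≤ Boxq st (k + j) X f := by
  induction j with
  | zero => simpa using h
  | succ j ih =>
    refine le_trans ?_ (Boxq_succ_ge st (k + j) X hX hf)
    have h2 := pow_le_pow_left₀ (pow_pos h0 _).le ih 2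
    rwa [← pow_mul, mul_assoc, ← pow_succ] at h2

theorem Boxq_raise {N : ℕ} [NeZero N] (st k r X : ℕ) (hk : k ≤ r) (hX : 1 ≤ X) {f : ZMod N → ℂ}
    (hf : ∀ x, ‖f x‖ ≤ 1) {δ : ℝ} (h0 : 0 < δ) (h1 : δ ≤ 1) (n : ℕ) (h : δ ^ n ≤ Boxq st k X f) :
    δ ^ (n * 2 ^ r) ≤ Boxq st r X f := by
  have h2 := Boxq_pow st k X hX hf h0 n (r - k) h
  rw [Nat.add_sub_cancel' hk] at h2
  refine le_trans (pow_anti h0 h1 ?_) h2
  exact Nat.mul_le_mul_left _ (Nat.pow_le_pow_right (by norm_num) (Nat.sub_le _ _))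

end

end Pool.Agent.Helper91.NX2

namespace Pool.Agent.Helper67.NX2

open Pool.Agent.Helper57.NX
open Pool.Agent.Helper82.NX
open Pool.Agent.Helper91.NX2

noncomputable section

theorem gnc_arith (m : ℕ) (c : Fin (m + 1) → ℝ) (hc : Ex c) (d : ℕ) (hd : c (Fin.last m) = d)
    (κ : ℝ) (hκ : 0 < κ) :
    ∃ x0 : ℝ, 0 < x0 ∧ ∃ r C : ℕ, ∃ σ : ℝ, 0 < σ ∧ ∃ D0 : ℝ,
    ∀ (S : Sys (m + 1)) (N : ℕ) [NeZero N] (lam : ℕ), D0 ≤ S.D → IG S c N x0 lam →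
    ∀ δ : ℝ, S.D ^ (-σ) ≤ δ → δ ≤ 1 / 2 → (lam : ℝ) ≤ δ⁻¹ →
    ∀ (f0 : ZMod N → ℂ) (f : Fin (m + 1) → ZMod N → ℂ),
    Adm δ⁻¹ S.Q f0 → (∀ i, Adm δ⁻¹ S.Q (f i)) → δ ≤ ‖form S c 1 f0 f‖ →
    ∃ q : ℕ, 1 ≤ q ∧ (q : ℝ) ≤ δ⁻¹ ^ C ∧ ∀ H : ℕ, 1 ≤ H → (H : ℝ) ≤ S.D ^ (1 - κ) →
      δ ^ C ≤ Boxq (S.Q * q) r H (f (Fin.last m)) := by
  classical
  have hd2 : 2 ≤ d := by
    have := hc.two (Fin.last m)
    rw [hd] at this
    exact_mod_cast this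
  have hd2r : (2 : ℝ) ≤ d := by exact_mod_cast hd2
  have hcm : ∀ i : Fin m, c i.castSucc ≤ (d : ℝ) - 2 := by
    intro i
    have := hc.gap _ _ (Fin.castSucc_lt_last i)
    rw [hd] at this
    linarith
  have hcle : ∀ i : Fin (m + 1), c i ≤ d := by
    intro i
    rcases Fin.eq_castSucc_or_eq_last i with ⟨j, rfl⟩ | rfl
    · have := hcm j
      linarith
    · exact hd.le
  -- constants
  obtain ⟨ν, s₁, hrd⟩ := rounds' c (d : ℝ) (d + 2) (d - 1) (fun i hi => by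
    have h1 : (i : ℝ) < d := by exact_mod_cast (by omega : i < d)
    intro h
    linarith) (m + 1)
  obtain ⟨n₁, hn₁, hrd⟩ := hrd (m + 1) 1
  obtain ⟨Ce, hCe, hev⟩ := ev_lin c (n₁ + n₁) d
  obtain ⟨C0, hC0, hinit⟩ := init_clu c (1 + ν)
  obtain ⟨Nm, hNm⟩ : ∃ Nm : ℕ, Nm = 2 * n₁ + 4 := ⟨_, rfl⟩
  obtain ⟨nl, hnl⟩ : ∃ nl : ℕ, nl = n₁ + 2 + d + (Nm + 1) * d := ⟨_, rfl⟩
  obtain ⟨Lf, hLf⟩ : ∃ Lf : ℕ → ℕ, ∀ r : ℕ, (hr : 1 ≤ r) →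
      ∀ (N : ℕ) [NeZero N] (δ : ℝ) (K Q : ℕ)
    (α β : Fin r → ℤ) (fs : ZMod N → ℂ) (f : Fin r → ZMod N → ℂ), 0 < δ → δ ≤ 1 / 2 →
    (∀ x, ‖fs x‖ ≤ 1) → (∀ j x, ‖f j x‖ ≤ 1) → (∀ j, α j ≠ 0 ∧ |(α j : ℝ)| ≤ δ⁻¹ ^ nl) →
    δ⁻¹ ^ (Lf r) ≤ K →
    δ ^ nl ≤ ‖𝔼 k ∈ range K, 𝔼 x, fs x * ∏ j, f j (x + ((Q * (α j * k + β j) : ℤ) : ZMod N))‖ →
    ∃ q : ℕ, 1 ≤ q ∧ (q : ℝ) ≤ δ⁻¹ ^ (Lf r) ∧ ∀ H : ℕ, 1 ≤ H → (H : ℝ) ≤ δ ^ (Lf r) * K →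
      δ ^ (Lf r) ≤ Boxq (Q * q) r H fs := by
    refine ⟨fun r => if hr : 1 ≤ r then Classical.choose (lin_forms' r nl hr) else 0, ?_⟩
    intro r hr
    simp only [dif_pos hr]
    exact Classical.choose_spec (lin_forms' r nl hr)
  obtain ⟨Lmax, hLmax⟩ : ∃ Lmax : ℕ, Lmax = ∑ r ∈ range (s₁ + 1), Lf r := ⟨_, rfl⟩
  obtain ⟨Nt, hNt⟩ : ∃ Nt : ℕ, Nt = Nm + nl + Lmax + 4 * n₁ + 8 := ⟨_, rfl⟩
  obtain ⟨θ, hθdef⟩ : ∃ θ : ℝ, θ = min (κ / 4) (1 / (16 * (d + 2))) := ⟨_, rfl⟩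
  have hd0 : (0 : ℝ) < 16 * ((d : ℝ) + 2) := by linarith
  have hθp : 0 < θ := by
    rw [hθdef]
    exact lt_min (by linarith) (by positivity)
  have hθκ : θ ≤ κ / 4 := by rw [hθdef]; exact min_le_left _ _
  have hθd : θ * (16 * (d + 2)) ≤ 1 := by
    have h1 : θ ≤ 1 / (16 * (d + 2)) := by rw [hθdef]; exact min_le_right _ _
    rwa [le_div_iff₀ hd0] at h1
  have hθ64 : 64 * θ ≤ 1 := by nlinarith
  obtain ⟨D0, hD02, hD0⟩ := exists_D0 θ (2 * ν + 4 * n₁ + C0 + 2 * Ce + 4 * s₁ +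
    32 * ((n₁ + n₁ : ℕ) * 2 ^ (n₁ + n₁)) + 32) hθp
  refine ⟨θ, hθp, s₁, Lmax * 2 ^ s₁, θ / (Nt + 1), by positivity, D0, ?_⟩
  intro S N _ lam hDD hIG δ hδ hδ2 hlam f0 f hf0 hf hform
  have hG := hIG.good
  obtain ⟨rr, hrr⟩ := hIG.rho
  obtain ⟨D, hDdef⟩ : ∃ D, D = S.D := ⟨_, rfl⟩
  rw [← hDdef] at hDD hδ
  have hD2 : 2 ≤ D := hD02.trans hDD
  have hD1 : 1 ≤ D := by linarith
  have hDp : 0 < D := by linarith
  have hbig := hD0 D hDD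
  have hν0 : (0 : ℝ) ≤ ν := Nat.cast_nonneg _
  have hn0 : (0 : ℝ) ≤ n₁ := Nat.cast_nonneg _
  have hs0 : (0 : ℝ) ≤ s₁ := Nat.cast_nonneg _
  have hE0 : (0 : ℝ) ≤ (n₁ + n₁ : ℕ) * 2 ^ (n₁ + n₁) := by positivity
  have hA1 : 2 * (ν : ℝ) ≤ D ^ θ := by linarith
  have hA2 : 4 * (n₁ : ℝ) ≤ D ^ θ := by linarith
  have hA3 : C0 ≤ D ^ θ := by linarith
  have hA4 : 2 * Ce ≤ D ^ θ := by linarith
  have hA5 : 4 * (s₁ : ℝ) ≤ D ^ θ := by linarith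
  have hA6 : 32 * ((n₁ + n₁ : ℕ) * (2 : ℝ) ^ (n₁ + n₁)) ≤ D ^ θ := by linarith
  have hA7 : (32 : ℝ) ≤ D ^ θ := by linarith
  have pw : ∀ {a b : ℝ}, a ≤ b → D ^ a ≤ D ^ b := fun h =>
    Real.rpow_le_rpow_of_exponent_le hD1 h
  have pp : ∀ a : ℝ, 0 < D ^ a := fun a => Real.rpow_pos_of_pos hDp a
  have pa : ∀ a b : ℝ, D ^ a * D ^ b = D ^ (a + b) := fun a b => (Real.rpow_add hDp a b).symm
  have p1 : D ^ (1 : ℝ) = D := Real.rpow_one D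
  -- δ
  have hδ0 : 0 < δ := lt_of_lt_of_le (pp _) hδ
  have hδ1 : δ ≤ 1 := hδ2.trans (by norm_num)
  have hinv0 : 0 < δ⁻¹ := inv_pos.2 hδ0
  have hinv1 : 1 ≤ δ⁻¹ := (one_le_inv₀ hδ0).2 hδ1
  have hinv2 : 2 ≤ δ⁻¹ := by
    rw [le_inv_comm₀ (by norm_num) hδ0]
    linarith
  have hδn : ∀ n : ℕ, n ≤ Nt → D ^ (-θ) ≤ δ ^ n := by
    intro n hn
    refine le_trans ?_ (pow_le_pow_left₀ (pp _).le hδ n)
    rw [← Real.rpow_natCast, ← Real.rpow_mul hDp.le]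
    refine pw ?_
    have h1 : (n : ℝ) ≤ Nt + 1 := by
      have : (n : ℝ) ≤ Nt := by exact_mod_cast hn
      linarith
    have h2 : θ / (Nt + 1) * n ≤ θ := by
      rw [div_mul_eq_mul_div, div_le_iff₀ (by positivity)]
      exact mul_le_mul_of_nonneg_left h1 hθp.le
    linarith
  have hδi : ∀ n : ℕ, n ≤ Nt → δ⁻¹ ^ n ≤ D ^ θ := by
    intro n hn
    have h1 := hδn n hn
    rw [Real.rpow_neg hDp.le] at h1
    rw [inv_pow]
    exact inv_le_of_inv_le₀ (pp _) h1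
  have hcp : ∀ n : ℕ, δ⁻¹ ^ n * δ ^ n = 1 := by
    intro n
    rw [← mul_pow, inv_mul_cancel₀ hδ0.ne', one_pow]
  -- `M`
  obtain ⟨M, hMdef⟩ : ∃ M : ℕ, M = ⌈δ⁻¹ ^ Nm⌉₊ := ⟨_, rfl⟩
  have hM1 : δ⁻¹ ^ Nm ≤ (M : ℝ) := by rw [hMdef]; exact Nat.le_ceil _
  have hM1' : (1 : ℝ) ≤ M := (one_le_pow₀ hinv1).trans hM1
  have hM2 : (M : ℝ) ≤ 2 * δ⁻¹ ^ Nm := by
    have h1 := Nat.ceil_lt_add_one (show 0 ≤ δ⁻¹ ^ Nm by positivity)
    rw [← hMdef] at h1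
    have h2 : 1 ≤ δ⁻¹ ^ Nm := one_le_pow₀ hinv1
    linarith
  have hMpos : (0 : ℝ) < M := by linarith
  have hMθ : (M : ℝ) ≤ D ^ (2 * θ) := by
    calc (M : ℝ) ≤ 2 * δ⁻¹ ^ Nm := hM2
      _ ≤ D ^ θ * D ^ θ := mul_le_mul (by linarith) (hδi _ (by omega)) (by positivity) (pp _).le
      _ = D ^ (2 * θ) := by rw [pa]; congr 1; ring
  have hMD : (M : ℝ) / D ≤ D ^ (2 * θ - 1) := by
    rw [Real.rpow_sub_one hDp.ne']
    exact div_le_div_of_nonneg_right hMθ hDp.le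
  have hMD0 : 0 < (M : ℝ) / D := by positivity
  have hMDj : ∀ j : ℕ, ((M : ℝ) / D) ^ j ≤ D ^ ((2 * θ - 1) * j) := by
    intro j
    rw [Real.rpow_mul hDp.le, Real.rpow_natCast]
    exact pow_le_pow_left₀ hMD0.le hMD j
  -- `Q` and `P`
  have hQ1 : D ^ (2 : ℝ) ≤ S.Q := by have := hG.Q1; rwa [← hDdef] at this
  have hQp : (0 : ℝ) < S.Q := lt_of_lt_of_le (pp _) hQ1
  have hQpos : 0 < S.Q := by exact_mod_cast hQp
  have hPm0 : S.P (Fin.last m) = S.Q * (lam * D) ^ d := by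
    have := hIG.Pint (Fin.last m) d hd
    rwa [← hDdef] at this
  have hlam1 : (1 : ℝ) ≤ lam := by exact_mod_cast hIG.lam1
  have hPm1 : S.Q * D ^ ((d : ℝ) - θ) ≤ S.P (Fin.last m) := by
    have := hG.P1 (Fin.last m)
    rwa [← hDdef, hd] at this
  have hPmp : 0 < S.P (Fin.last m) := lt_of_lt_of_le (mul_pos hQp (pp _)) hPm1
  have hP0 : ∀ i, 0 ≤ S.P i := fun i => by
    have := hG.P1 i
    rw [← hDdef] at this
    exact le_trans (mul_nonneg hQp.le (pp _).le) this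
  have hP2 : ∀ i, S.P i ≤ S.Q * D ^ (c i + θ) := fun i => by
    have := hG.P2 i
    rwa [← hDdef] at this
  have hPi : ∀ i, S.P i ≤ S.Q * D ^ ((d : ℝ) + θ) := by
    intro i
    refine (hP2 i).trans (mul_le_mul_of_nonneg_left (pw ?_) hQp.le)
    linarith [hcle i]
  have hPlow : ∀ i : Fin m, S.P i.castSucc ≤ S.Q * D ^ ((d : ℝ) - 2 + θ) := by
    intro i
    refine (hP2 _).trans (mul_le_mul_of_nonneg_left (pw ?_) hQp.le)
    linarith [hcm i]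
  -- `w`
  obtain ⟨w, hw⟩ : ∃ w : ℝ, w = D ^ (-(1 / 4) : ℝ) := ⟨_, rfl⟩
  have hw0 : 0 < w := by rw [hw]; exact pp _
  have hwδ : ∀ n : ℕ, n ≤ Nt → w ≤ δ ^ n := fun n hn => by
    rw [hw]
    exact (pw (by linarith)).trans (hδn n hn)
  have hT : D ^ (1 - θ) ≤ S.T := by have := hG.T1; rwa [← hDdef] at this
  have hu1 : D ≤ S.u := by have := hG.u1; rwa [← hDdef] at this
  have hu2 : (S.u : ℝ) + S.T ≤ 2 * D := by have := hG.u2; rwa [← hDdef] at this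
  have hTp0 : (0 : ℝ) < S.T := lt_of_lt_of_le (pp _) hT
  have hTn : 0 < S.T := by exact_mod_cast hTp0
  have hEnv : Env S N δ M (d + 2) w n₁ :=
    { ρ0 := hG.ρ0
      ρ1 := hG.ρ1
      D1 := by rw [← hDdef]; exact hD1
      δ0 := hδ0
      δ1 := hδ2
      u1 := hG.u1
      u2 := hG.u2
      MT := by
        refine hMθ.trans ?_
        calc D ^ (2 * θ) ≤ D ^ (-θ + (1 - θ)) := pw (by linarith)
          _ = D ^ (-θ) * D ^ (1 - θ) := (pa _ _).symm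
          _ ≤ δ ^ n₁ * S.T := mul_le_mul (hδn _ (by omega)) hT (pp _).le (pow_pos hδ0 _).le
      M1 := (pow_le_pow_right₀ hinv1 (by omega)).trans hM1
      MD := by
        rw [← hDdef, hw]
        exact hMD.trans (pw (by linarith))
      w1 := hwδ _ (by omega)
      P0 := hP0
      PR := by
        intro i
        rw [← hDdef]
        calc S.P i * ((M : ℝ) / D) ^ (d + 2) ≤ (S.Q * D ^ ((d : ℝ) + θ)) *
              D ^ ((2 * θ - 1) * ((d + 2 : ℕ) : ℝ)) :=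
              mul_le_mul (hPi i) (hMDj _) (by positivity) (mul_nonneg hQp.le (pp _).le)
          _ = S.Q * D ^ ((d : ℝ) + θ + (2 * θ - 1) * ((d + 2 : ℕ) : ℝ)) := by rw [mul_assoc, pa]
          _ ≤ S.Q * D ^ (-(1 / 4) : ℝ) := by
              refine mul_le_mul_of_nonneg_left (pw ?_) hQp.le
              push_cast
              nlinarith
          _ = w * S.Q := by rw [hw]; exact mul_comm _ _
      wQ := by
        rw [hw]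
        calc (1 : ℝ) = D ^ (0 : ℝ) := (Real.rpow_zero D).symm
          _ ≤ D ^ (-(1 / 4) + 2 : ℝ) := pw (by norm_num)
          _ = D ^ (-(1 / 4) : ℝ) * D ^ (2 : ℝ) := (pa _ _).symm
          _ ≤ D ^ (-(1 / 4) : ℝ) * S.Q := mul_le_mul_of_nonneg_left hQ1 (pp _).le
      QN := hG.N2 }
  have hMθ3 : D ^ θ * M ≤ D := by
    calc D ^ θ * M ≤ D ^ θ * D ^ (2 * θ) := mul_le_mul_of_nonneg_left hMθ (pp _).le
      _ = D ^ (θ + 2 * θ) := pa _ _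
      _ ≤ D ^ (1 : ℝ) := pw (by linarith)
      _ = D := p1
  have hνM : (ν : ℝ) * M ≤ D / 2 := by
    have := mul_le_mul_of_nonneg_right hA1 hMpos.le
    linarith
  have hnM : ((n₁ + n₁ : ℕ) : ℝ) * M ≤ D := by
    have := mul_le_mul_of_nonneg_right hA2 hMpos.le
    push_cast
    have h0 : 0 ≤ (n₁ : ℝ) * M := by positivity
    linarith
  -- the initial list
  have hclu := hinit S (by rw [← hDdef]; exact hD1) hG.ρ0 hG.ρ1 δ M (5 / 2 * D + ν * M) w hδ0 hδ1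
    (by rw [← hDdef]; linarith) hw0.le hPmp.le (fun i => ⟨hP0 _, by
      calc C0 * S.P i.castSucc ≤ D ^ θ * (S.Q * D ^ ((d : ℝ) - 2 + θ)) :=
            mul_le_mul hA3 (hPlow i) (hP0 _) (pp _).le
        _ = S.Q * D ^ (θ + ((d : ℝ) - 2 + θ)) := by rw [← pa θ]; ring
        _ ≤ S.Q * D ^ (((d : ℝ) - θ) + -(1 / 4)) := by
            refine mul_le_mul_of_nonneg_left (pw ?_) hQp.le
            linarith
        _ = (S.Q * D ^ ((d : ℝ) - θ)) * w := by rw [hw, ← pa]; ring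
        _ ≤ S.P (Fin.last m) * w := mul_le_mul_of_nonneg_right hPm1 hw0.le⟩)
  rw [hd] at hclu
  have hadm : ∀ {g : ZMod N → ℂ}, Adm δ⁻¹ S.Q g → ∀ n : ℕ, 1 ≤ n → Adm (δ⁻¹ ^ n) S.Q g := by
    intro g hg n hn
    refine Helper82.NX.Adm.mono' hg hQp ?_
    have := inv_pow_mono hδ0 hδ1 hn
    rwa [pow_one] at this
  have hform' : δ ^ (m + 1) ≤ ‖lform S c 1 ((f (Fin.last m), Finsupp.single ([], Fin.last m) 1) ::
      (f0, 0) :: List.ofFn fun i : Fin m =>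
        (f i.castSucc, (Finsupp.single (([] : List ℕ), i.castSucc) (1 : ℤ) : Phi (m + 1))))‖ := by
    rw [← form_eq_lform]
    refine le_trans ?_ hform
    have := pow_anti hδ0 hδ1 (show 1 ≤ m + 1 by omega)
    rwa [pow_one] at this
  obtain ⟨g0', t', _, ht'2, ht'3, ht'4, ht'v, ht'5⟩ := hrd S N δ (5 / 2 * D) (S.P (Fin.last m)) w M
    hEnv hQpos hw0.le hPmp (by rw [← hDdef]; linarith) (f (Fin.last m))
    (Finsupp.single ([], Fin.last m) 1)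
    ((f0, 0) :: List.ofFn fun i : Fin m =>
        (f i.castSucc, (Finsupp.single (([] : List ℕ), i.castSucc) (1 : ℤ) : Phi (m + 1))))
    (by simp) (hadm (hf _) _ (by omega))
    (by
      intro fp hfp
      rw [List.mem_cons, List.mem_ofFn] at hfp
      rcases hfp with rfl | ⟨i, rfl⟩
      · exact hadm hf0 _ (by omega)
      · exact hadm (hf _) _ (by omega))
    (by
      rw [List.map_cons, List.map_ofFn]
      exact hclu) hform'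
  rw [← hDdef] at ht'4
  obtain ⟨fs, hfs⟩ : ∃ fs, fs = f (Fin.last m) := ⟨_, rfl⟩
  rw [← hfs] at ht'2 ht'5 ⊢
  have hfsA : Adm (δ⁻¹ ^ n₁) S.Q fs := by rw [hfs]; exact hadm (hf _) _ (by omega)
  have hγ1 : (d : ℝ) - ((d - 1 : ℕ) : ℝ) = 1 := by
    rw [Nat.cast_sub (by omega)]
    push_cast
    ring
  rw [hγ1] at ht'4
  -- `lam1`
  obtain ⟨L1, hL1⟩ : ∃ L1 : ℝ, L1 = (lam : ℝ) ^ d * (M : ℝ) ^ (d - 1) := ⟨_, rfl⟩
  have hlam1e : S.P (Fin.last m) * ((M : ℝ) / D) ^ (d - 1) = L1 * (S.Q * D) := by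
    rw [hPm0, hL1, div_pow, mul_pow]
    have h1 : D ^ d = D ^ (d - 1) * D := by
      rw [← pow_succ]
      congr 1
      omega
    rw [h1]
    have : D ^ (d - 1) ≠ 0 := by positivity
    field_simp
  rw [hlam1e] at ht'4
  have hMle : (M : ℝ) ≤ L1 := by
    rw [hL1]
    calc (M : ℝ) = 1 * (M : ℝ) ^ 1 := by rw [pow_one, one_mul]
      _ ≤ (lam : ℝ) ^ d * (M : ℝ) ^ (d - 1) :=
          mul_le_mul (one_le_pow₀ hlam1) (pow_le_pow_right₀ hM1' (by omega)) (by positivity)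
            (by positivity)
  have hL1p : 0 < L1 := by linarith
  have hL1u : L1 ≤ δ⁻¹ ^ (d + (Nm + 1) * d) := by
    rw [hL1, pow_add]
    refine mul_le_mul (pow_le_pow_left₀ (by positivity) hlam d) ?_ (by positivity) (by positivity)
    calc (M : ℝ) ^ (d - 1) ≤ (M : ℝ) ^ d := pow_le_pow_right₀ hM1' (by omega)
      _ ≤ (δ⁻¹ ^ (Nm + 1)) ^ d := by
          refine pow_le_pow_left₀ hMpos.le (hM2.trans ?_) d
          rw [pow_succ, mul_comm]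
          exact mul_le_mul_of_nonneg_left hinv2 (by positivity)
      _ = δ⁻¹ ^ ((Nm + 1) * d) := (pow_mul _ _ _).symm
  have hr1 : 1 ≤ t'.length := by
    have := ht'4.ne
    rw [ne_eq, List.map_eq_nil_iff] at this
    exact List.length_pos_iff.2 this
  -- the functions and the differences
  obtain ⟨g, hg⟩ : ∃ g : Fin t'.length → ZMod N → ℂ, g = fun j => (t'[j.1]).1 := ⟨_, rfl⟩
  obtain ⟨p, hp⟩ : ∃ p : Fin t'.length → Phi (m + 1), p = fun j => (t'[j.1]).2 - g0' := ⟨_, rfl⟩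
  have hgA : ∀ j, Adm (δ⁻¹ ^ n₁) S.Q (g j) := by
    intro j
    rcases ht'2 (by omega) _ (List.getElem_mem j.2) with h | h
    · rw [hg]; simp only [h]; exact hfsA
    · rw [hg]; simp only [h]; exact hfsA.cnj
  have hmem : ∀ j : Fin t'.length, (t'[j.1]).2 ∈ t'.map Prod.snd := fun j =>
    List.mem_map.2 ⟨_, List.getElem_mem j.2, rfl⟩
  have hTp : ∀ j, Tp S c δ n₁ 1 (5 / 2 * D) 1 (L1 * (S.Q * D)) w (p j) := fun j => by
    rw [hp]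
    exact ht'4.g _ (hmem j)
  have hBd : ∀ j, Bd M (n₁ + n₁) (p j) := fun j => by
    rw [hp]
    exact (ht'4.bt _ (hmem j)).sub ht'4.b0
  have hVV : ∀ j, p j ∈ (VV (d - 1) : AddSubgroup (Phi (m + 1))) := fun j => by
    rw [hp]
    exact ht'v _ (List.getElem_mem j.2)
  -- exact linear values
  have haN : ∀ k, S.a c (Fin.last m) k = (S.Q : ℤ) * ((lam * k + rr : ℕ) : ℤ) ^ d := fun k =>
    a_nat hIG (by rw [← hDdef]; exact hDp) hrr (Fin.last m) d hd k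
  have hlinj : ∀ j, ∃ αβ : ℤ × ℤ, ∀ k : ℕ, D ≤ k → (k : ℝ) ≤ 3 * D →
      |((ev (S.a c) (p j) k - S.Q * (αβ.1 * k + αβ.2) : ℤ) : ℝ)| ≤
        Ce * (1 + S.Q * D ^ ((d : ℝ) - 2 + θ) * ((M : ℝ) / D) ^ (d - 1)) := by
    intro j
    obtain ⟨α, β, h⟩ := hev S M (S.Q * D ^ ((d : ℝ) - 2 + θ)) lam rr
      (mul_nonneg hQp.le (pp _).le) (by rw [← hDdef]; exact hD1) hG.ρ0 hG.ρ1
      (by rw [← hDdef]; exact hnM) (fun i => ⟨hP0 _, hPlow i⟩) haN (p j) (hBd j) (hVV j)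
    refine ⟨(α, β), ?_⟩
    rw [← hDdef] at h
    exact h
  choose αβ hαβ using hlinj
  obtain ⟨Err, hErr⟩ : ∃ Err : ℝ, Err = S.Q * D ^ (-(1 / 2) : ℝ) := ⟨_, rfl⟩
  have hErrp : 0 < Err := by rw [hErr]; exact mul_pos hQp (pp _)
  have hErrb : Ce * (1 + S.Q * D ^ ((d : ℝ) - 2 + θ) * ((M : ℝ) / D) ^ (d - 1)) ≤ Err := by
    have h1 : S.Q * D ^ ((d : ℝ) - 2 + θ) * ((M : ℝ) / D) ^ (d - 1) ≤ S.Q * D ^ (-(3 / 4) : ℝ) := by
      calc S.Q * D ^ ((d : ℝ) - 2 + θ) * ((M : ℝ) / D) ^ (d - 1)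
          ≤ S.Q * D ^ ((d : ℝ) - 2 + θ) * D ^ ((2 * θ - 1) * ((d - 1 : ℕ) : ℝ)) :=
            mul_le_mul_of_nonneg_left (hMDj _) (mul_nonneg hQp.le (pp _).le)
        _ = S.Q * D ^ ((d : ℝ) - 2 + θ + (2 * θ - 1) * ((d - 1 : ℕ) : ℝ)) := by rw [mul_assoc, pa]
        _ ≤ S.Q * D ^ (-(3 / 4) : ℝ) := by
            refine mul_le_mul_of_nonneg_left (pw ?_) hQp.le
            rw [Nat.cast_sub (by omega)]
            push_cast
            nlinarith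
    have h2 : (1 : ℝ) ≤ S.Q * D ^ (-(3 / 4) : ℝ) := by
      calc (1 : ℝ) = D ^ (0 : ℝ) := (Real.rpow_zero D).symm
        _ ≤ D ^ (2 + -(3 / 4) : ℝ) := pw (by norm_num)
        _ = D ^ (2 : ℝ) * D ^ (-(3 / 4) : ℝ) := (pa _ _).symm
        _ ≤ S.Q * D ^ (-(3 / 4) : ℝ) := mul_le_mul_of_nonneg_right hQ1 (pp _).le
    calc Ce * (1 + S.Q * D ^ ((d : ℝ) - 2 + θ) * ((M : ℝ) / D) ^ (d - 1))
        ≤ Ce * (2 * (S.Q * D ^ (-(3 / 4) : ℝ))) := mul_le_mul_of_nonneg_left (by linarith) hCe.le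
      _ = (2 * Ce) * (S.Q * D ^ (-(3 / 4) : ℝ)) := by ring
      _ ≤ D ^ θ * (S.Q * D ^ (-(3 / 4) : ℝ)) :=
          mul_le_mul_of_nonneg_right hA4 (mul_nonneg hQp.le (pp _).le)
      _ = S.Q * D ^ (θ + -(3 / 4)) := by rw [← pa]; ring
      _ ≤ S.Q * D ^ (-(1 / 2) : ℝ) := mul_le_mul_of_nonneg_left (pw (by linarith)) hQp.le
      _ = Err := hErr.symm
  -- the slopes
  have hα : ∀ j, (αβ j).1 ≠ 0 ∧ |((αβ j).1 : ℝ)| ≤ δ⁻¹ ^ nl := by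
    intro j
    obtain ⟨Λ, hΛ1, hΛ2, hΛ3⟩ := slope S c δ n₁ (n₁ + n₁) M (5 / 2 * D) (L1 * (S.Q * D)) w Err (p j)
      (by rw [← hDdef]; exact hD1) hG.ρ0 (hTp j) (hBd j) S.u S.T (by rw [← hDdef]; exact hu1)
      (by linarith) S.Q (αβ j).1 (αβ j).2
      ((hαβ j S.u hu1 (by linarith)).trans hErrb)
      ((hαβ j (S.u + S.T) (by push_cast; linarith) (by push_cast; linarith)).trans hErrb)
    rw [← hDdef] at hΛ3
    obtain ⟨E1, hE1⟩ : ∃ E1 : ℝ, E1 = ((n₁ + n₁ : ℕ) : ℝ) * 2 ^ (n₁ + n₁) := ⟨_, rfl⟩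
    rw [← hE1] at hΛ3 hA6
    obtain ⟨α, hαd⟩ : ∃ α : ℝ, α = ((αβ j).1 : ℝ) := ⟨_, rfl⟩
    rw [← hαd] at hΛ3 ⊢
    have hQT : 0 < (S.Q : ℝ) * S.T := mul_pos hQp hTp0
    -- divide
    obtain ⟨x, hx⟩ : ∃ x : ℝ, x = Λ / (S.Q * D) := ⟨_, rfl⟩
    have hxa : |x| = |Λ| / (S.Q * D) := by
      rw [hx, abs_div, abs_of_pos (mul_pos hQp hDp)]
    have hx1 : δ ^ n₁ * L1 ≤ |x| := by
      rw [hxa, le_div_iff₀ (mul_pos hQp hDp)]
      calc δ ^ n₁ * L1 * (S.Q * D) = δ ^ n₁ * (L1 * (S.Q * D)) := by ring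
        _ ≤ |Λ| := hΛ1
    have hx2 : |x| ≤ δ⁻¹ ^ n₁ * L1 := by
      rw [hxa, div_le_iff₀ (mul_pos hQp hDp)]
      calc |Λ| ≤ δ⁻¹ ^ n₁ * (L1 * (S.Q * D)) := hΛ2
        _ = δ⁻¹ ^ n₁ * L1 * (S.Q * D) := by ring
    have hTΛ : S.T * (Λ / D) = x * (S.Q * S.T) := by
      rw [hx]; field_simp
    have hTE : S.T * (δ⁻¹ ^ n₁ * (L1 * (S.Q * D)) * w / D) = (δ⁻¹ ^ n₁ * w * L1) * (S.Q * S.T) := by
      field_simp
    have hw4 : δ⁻¹ ^ n₁ * w ≤ δ ^ n₁ / 4 := by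
      have h1 : w ≤ δ ^ (n₁ + n₁ + 2) := hwδ _ (by omega)
      have h2 : δ⁻¹ ^ n₁ * δ ^ (n₁ + n₁ + 2) = δ ^ (n₁ + 2) := by
        calc δ⁻¹ ^ n₁ * δ ^ (n₁ + n₁ + 2) = (δ⁻¹ ^ n₁ * δ ^ n₁) * δ ^ (n₁ + 2) := by ring
          _ = δ ^ (n₁ + 2) := by rw [hcp, one_mul]
      calc δ⁻¹ ^ n₁ * w ≤ δ⁻¹ ^ n₁ * δ ^ (n₁ + n₁ + 2) := mul_le_mul_of_nonneg_left h1 (by positivity)
        _ = δ ^ (n₁ + 2) := h2
        _ = δ ^ n₁ * δ ^ 2 := pow_add _ _ _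
        _ ≤ δ ^ n₁ * (1 / 4) := by
            refine mul_le_mul_of_nonneg_left ?_ (by positivity)
            nlinarith
        _ = δ ^ n₁ / 4 := by ring
    have hT32 : 32 ≤ (S.T : ℝ) := by
      calc (32 : ℝ) ≤ D ^ θ := hA7
        _ ≤ D ^ (1 - θ) := pw (by linarith)
        _ ≤ S.T := hT
    have hQ1' : (1 : ℝ) ≤ S.Q := by
      calc (1 : ℝ) = D ^ (0 : ℝ) := (Real.rpow_zero D).symm
        _ ≤ D ^ (2 : ℝ) := pw (by norm_num)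
        _ ≤ S.Q := hQ1
    have herr1 : 2 * Err ≤ (1 / 16) * (S.Q * S.T) := by
      have h1 : D ^ (-(1 / 2) : ℝ) ≤ 1 := by
        calc D ^ (-(1 / 2) : ℝ) ≤ D ^ (0 : ℝ) := pw (by norm_num)
          _ = 1 := Real.rpow_zero D
      have h2 : Err ≤ S.Q := by
        rw [hErr]
        exact mul_le_of_le_one_right hQp.le h1
      have h3 : (S.Q : ℝ) * 32 ≤ S.Q * S.T := mul_le_mul_of_nonneg_left hT32 hQp.le
      linarith
    have herr2 : 2 * E1 ≤ (1 / 16) * (S.Q * S.T) := by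
      have h1 : 32 * E1 ≤ S.T := by
        calc 32 * E1 ≤ D ^ θ := hA6
          _ ≤ D ^ (1 - θ) := pw (by linarith)
          _ ≤ S.T := hT
      have h2 : (1 : ℝ) * S.T ≤ S.Q * S.T := mul_le_mul_of_nonneg_right hQ1' hTp0.le
      linarith
    have hdiff : |α - x| ≤ 1 / 8 + δ ^ n₁ / 4 * L1 := by
      rw [hTΛ, hTE] at hΛ3
      have h1 : α * (S.Q * S.T) - x * (S.Q * S.T) = (α - x) * (S.Q * S.T) := by ring
      rw [h1, abs_mul, abs_of_pos hQT] at hΛ3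
      have h2 : δ⁻¹ ^ n₁ * w * L1 ≤ δ ^ n₁ / 4 * L1 := mul_le_mul_of_nonneg_right hw4 hL1p.le
      have h3 : (δ⁻¹ ^ n₁ * w * L1) * (S.Q * S.T) ≤ (δ ^ n₁ / 4 * L1) * (S.Q * S.T) :=
        mul_le_mul_of_nonneg_right h2 hQT.le
      have h4 : |α - x| * (S.Q * S.T) ≤ (1 / 8 + δ ^ n₁ / 4 * L1) * (S.Q * S.T) := by linarith
      exact le_of_mul_le_mul_right h4 hQT
    have hbig4 : 4 ≤ δ ^ n₁ * L1 := by
      have h1 : δ⁻¹ ^ (n₁ + 2) ≤ L1 :=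
        (pow_le_pow_right₀ hinv1 (by omega)).trans (hM1.trans hMle)
      have h2 : δ ^ n₁ * δ⁻¹ ^ (n₁ + 2) = δ⁻¹ ^ 2 := by
        calc δ ^ n₁ * δ⁻¹ ^ (n₁ + 2) = (δ⁻¹ ^ n₁ * δ ^ n₁) * δ⁻¹ ^ 2 := by ring
          _ = δ⁻¹ ^ 2 := by rw [hcp, one_mul]
      calc (4 : ℝ) = 2 ^ 2 := by norm_num
        _ ≤ δ⁻¹ ^ 2 := pow_le_pow_left₀ (by norm_num) hinv2 2
        _ = δ ^ n₁ * δ⁻¹ ^ (n₁ + 2) := h2.symm
        _ ≤ δ ^ n₁ * L1 := mul_le_mul_of_nonneg_left h1 (by positivity)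
    constructor
    · intro h0
      have hα0 : α = 0 := by rw [hαd, h0, Int.cast_zero]
      rw [hα0, zero_sub, abs_neg] at hdiff
      linarith
    · have h1 : |α| ≤ |x| + |α - x| := by
        have := abs_add_le x (α - x)
        rwa [add_sub_cancel] at this
      have h2 : δ ^ n₁ ≤ δ⁻¹ ^ n₁ :=
        (pow_le_one₀ hδ0.le hδ1).trans (one_le_pow₀ hinv1)
      have h3 : δ ^ n₁ * L1 ≤ δ⁻¹ ^ n₁ * L1 := mul_le_mul_of_nonneg_right h2 hL1p.le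
      calc |α| ≤ 2 * (δ⁻¹ ^ n₁ * L1) := by linarith
        _ ≤ δ⁻¹ * (δ⁻¹ ^ n₁ * δ⁻¹ ^ (d + (Nm + 1) * d)) :=
            mul_le_mul hinv2 (mul_le_mul_of_nonneg_left hL1u (by positivity)) (by positivity)
              (by positivity)
        _ = δ⁻¹ ^ (n₁ + 1 + (d + (Nm + 1) * d)) := by ring
        _ ≤ δ⁻¹ ^ nl := pow_le_pow_right₀ hinv1 (by omega)
  -- replace the sequences
  have hf1 : δ ^ n₁ ≤ ‖𝔼 k ∈ range S.T, 𝔼 x : ZMod N, fs x *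
      ∏ j, g j (x + ((ev (S.a c) (p j) (S.u + k) : ℤ) : ZMod N))‖ := by
    rw [SW27.lform_translate] at ht'5
    rw [← SW27.expect_Ico S.u S.T (fun k => 𝔼 x : ZMod N, fs x *
      ∏ j, g j (x + ((ev (S.a c) (p j) k : ℤ) : ZMod N))), hg, hp]
    exact ht'5
  have hrep : ∀ k ∈ range S.T, ‖(𝔼 x : ZMod N, fs x *
      ∏ j, g j (x + ((ev (S.a c) (p j) (S.u + k) : ℤ) : ZMod N))) - 𝔼 x : ZMod N, fs x *
      ∏ j, g j (x + ((S.Q * ((αβ j).1 * k + ((αβ j).1 * S.u + (αβ j).2)) : ℤ) : ZMod N))‖ ≤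
        (t'.length * Err) * (δ⁻¹ ^ n₁ * (1 / S.Q + 1 / N)) := by
    intro k hk
    have hkT : (k : ℝ) ≤ S.T := by exact_mod_cast (Finset.mem_range.1 hk).le
    have hk0 : (0 : ℝ) ≤ k := Nat.cast_nonneg k
    have h4 := LF.expect_prod_diff hQp fs hfsA.bdd g hgA
      (fun j => ev (S.a c) (p j) (S.u + k))
      (fun j => S.Q * ((αβ j).1 * k + ((αβ j).1 * S.u + (αβ j).2))) (fun _ => Err)
      (fun j => by
        have h5 := (hαβ j (S.u + k) (by push_cast; linarith) (by push_cast; linarith)).trans hErrb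
        refine le_trans (le_of_eq ?_) h5
        congr 2
        push_cast
        ring)
    rw [Finset.sum_const, Finset.card_univ, Fintype.card_fin, nsmul_eq_mul] at h4
    exact h4
  have herr : (t'.length * Err) * (δ⁻¹ ^ n₁ * (1 / S.Q + 1 / N)) ≤ δ ^ n₁ / 2 := by
    have hQN : (S.Q : ℝ) ≤ N := hG.N2
    have hN : (1 : ℝ) / N ≤ 1 / S.Q := one_div_le_one_div_of_le hQp hQN
    have ht's : (t'.length : ℝ) ≤ s₁ := by exact_mod_cast ht'3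
    have h1 : (t'.length * Err) * (δ⁻¹ ^ n₁ * (1 / S.Q + 1 / N)) ≤
        (s₁ * Err) * (δ⁻¹ ^ n₁ * (1 / S.Q + 1 / S.Q)) := by
      have : (0 : ℝ) ≤ 1 / N := by positivity
      gcongr
    have h2 : (s₁ * Err) * (δ⁻¹ ^ n₁ * (1 / S.Q + 1 / S.Q)) =
        (2 * s₁) * D ^ (-(1 / 2) : ℝ) * δ⁻¹ ^ n₁ := by
      rw [hErr]
      field_simp
      ring
    have h3 : D ^ (-(1 / 2) : ℝ) * (D ^ θ * D ^ θ) ≤ D ^ (-θ) := by
      rw [pa, pa]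
      exact pw (by linarith)
    calc _ ≤ (2 * s₁) * D ^ (-(1 / 2) : ℝ) * δ⁻¹ ^ n₁ := h1.trans (le_of_eq h2)
      _ = (1 / 2) * ((4 * s₁) * D ^ (-(1 / 2) : ℝ) * δ⁻¹ ^ n₁) := by ring
      _ ≤ (1 / 2) * (D ^ θ * D ^ (-(1 / 2) : ℝ) * D ^ θ) := by
          refine mul_le_mul_of_nonneg_left ?_ (by norm_num)
          refine mul_le_mul (mul_le_mul_of_nonneg_right hA5 (pp _).le) (hδi _ (by omega))
            (by positivity) (mul_nonneg (pp _).le (pp _).le)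
      _ = (1 / 2) * (D ^ (-(1 / 2) : ℝ) * (D ^ θ * D ^ θ)) := by ring
      _ ≤ (1 / 2) * D ^ (-θ) := mul_le_mul_of_nonneg_left h3 (by norm_num)
      _ ≤ (1 / 2) * δ ^ n₁ := mul_le_mul_of_nonneg_left (hδn _ (by omega)) (by norm_num)
      _ = δ ^ n₁ / 2 := by ring
  have h5 : δ ^ nl ≤ ‖𝔼 k ∈ range S.T, 𝔼 x : ZMod N, fs x *
      ∏ j, g j (x + ((S.Q * ((αβ j).1 * k + ((αβ j).1 * S.u + (αβ j).2)) : ℤ) : ZMod N))‖ := by
    have h6 : ‖(𝔼 k ∈ range S.T, 𝔼 x : ZMod N, fs x *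
      ∏ j, g j (x + ((ev (S.a c) (p j) (S.u + k) : ℤ) : ZMod N))) -
      𝔼 k ∈ range S.T, 𝔼 x : ZMod N, fs x *
      ∏ j, g j (x + ((S.Q * ((αβ j).1 * k + ((αβ j).1 * S.u + (αβ j).2)) : ℤ) : ZMod N))‖ ≤
        δ ^ n₁ / 2 := by
      rw [← Finset.expect_sub_distrib]
      refine norm_expect_le_of5 _ _ (by positivity) fun k hk => ?_
      exact (hrep k hk).trans herr
    have h7 := norm_sub_norm_le (𝔼 k ∈ range S.T, 𝔼 x : ZMod N, fs x *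
      ∏ j, g j (x + ((ev (S.a c) (p j) (S.u + k) : ℤ) : ZMod N)))
      (𝔼 k ∈ range S.T, 𝔼 x : ZMod N, fs x *
      ∏ j, g j (x + ((S.Q * ((αβ j).1 * k + ((αβ j).1 * S.u + (αβ j).2)) : ℤ) : ZMod N)))
    have h8 : δ ^ nl ≤ δ ^ n₁ / 2 := by
      calc δ ^ nl ≤ δ ^ (n₁ + 1) := pow_le_pow_of_le_one hδ0.le hδ1 (by omega)
        _ ≤ δ ^ n₁ / 2 := by
          rw [pow_succ]
          have : 0 < δ ^ n₁ := by positivity
          nlinarith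
    linarith
  -- linear forms
  have hLr : Lf t'.length ≤ Lmax := by
    rw [hLmax]
    exact Finset.single_le_sum (f := Lf) (fun _ _ => Nat.zero_le _)
      (Finset.mem_range.2 (Nat.lt_succ_of_le ht'3))
  have hDT : ∀ n : ℕ, n ≤ Nt → D ^ (1 - 2 * θ) ≤ δ ^ n * S.T := by
    intro n hn
    calc D ^ (1 - 2 * θ) = D ^ (-θ) * D ^ (1 - θ) := by rw [pa]; congr 1; ring
      _ ≤ δ ^ n * S.T := mul_le_mul (hδn _ hn) hT (pp _).le (by positivity)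
  obtain ⟨q, hq1, hq2, hq3⟩ := hLf t'.length hr1 N δ S.T S.Q (fun j => (αβ j).1)
    (fun j => (αβ j).1 * S.u + (αβ j).2) fs g hδ0 hδ2 hfsA.bdd (fun j => (hgA j).bdd) hα
    (by
      calc δ⁻¹ ^ Lf t'.length ≤ D ^ θ := hδi _ (by omega)
        _ ≤ D ^ (1 - θ) := pw (by linarith)
        _ ≤ S.T := hT)
    (by exact_mod_cast h5)
  have h2s : 1 ≤ 2 ^ s₁ := Nat.one_le_two_pow
  have hLC : Lf t'.length ≤ Lmax * 2 ^ s₁ := hLr.trans (Nat.le_mul_of_pos_right _ h2s)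
  refine ⟨q, hq1, hq2.trans (pow_le_pow_right₀ hinv1 hLC), ?_⟩
  intro H hH hHb
  rw [← hDdef] at hHb
  have h9 := hq3 H hH (hHb.trans ((pw (by linarith)).trans (hDT _ (by omega))))
  have h10 := Boxq_raise (S.Q * q) t'.length s₁ H ht'3 hH hfsA.bdd hδ0 hδ1 _ h9
  exact (pow_le_pow_of_le_one hδ0.le hδ1 (Nat.mul_le_mul_right _ hLr)).trans h10

end

end Pool.Agent.Helper67.NX2
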