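import Pool.Agent.Helper91.NX2.AlKey

/-!
# Project NX2, module A24, part B: alignment of frequencies along progressions, from the
conclusion of `ar_top`
-/

set_option autoImplicit false

open Finset
open scoped BigOperators ComplexConjugate

namespace Pool.Agent.Helper91.NX2

open Pool.Agent.Helper57.NX
open Pool.Agent.Helper67.NX2

noncomputable section

/-- conclusion of `ar_top` -/
def ArTopC (m : ℕ) (c : Fin (m + 1) → ℝ) (s ε : ℝ) : Prop :=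
  ∃ x0 : ℝ, 0 < x0 ∧ ∃ C : ℕ, ∃ σ : ℝ, 0 < σ ∧ ∃ D0 : ℝ,
    ∀ (S : Sys (m + 1)) (N : ℕ) [NeZero N] (lam : ℕ), D0 ≤ S.D → IG S c N x0 lam →
    ∀ δ : ℝ, S.D ^ (-σ) ≤ δ → δ ≤ 1 / 2 → (lam : ℝ) ≤ δ⁻¹ →
    ∀ (p : ℕ) [NeZero p], p.Prime → N = S.Q * p → ∀ q : ℕ, 1 ≤ q → (q : ℝ) ≤ δ⁻¹ →
    ∀ X : ℝ, 1 ≤ X → S.D ^ (s - σ) ≤ X →
    ∀ (f0 : ZMod N → ℂ) (f : Fin m → ZMod N → ℂ), Adm δ⁻¹ S.Q f0 → (∀ i, Adm δ⁻¹ S.Q (f i)) →
    ∀ G : ZMod p → ℂ, Adm δ⁻¹ X (fun z => G ((q : ZMod p) * z)) →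
    δ ≤ ‖form S c 1 f0 (Fin.snoc (α := fun _ => ZMod N → ℂ) f (blk S.Q G))‖ →
    ∀ L : ℕ, 1 ≤ L → (L : ℝ) * (S.Q * q) ≤ S.P (Fin.last m) * S.D ^ (-ε) →
      δ ^ C ≤ nrm (A L (fun z : ZMod p => G ((q : ZMod p) * z)))

section
variable {m N : ℕ} [NeZero N]

theorem bd_add {p : ℕ} (Q q : ℕ) (u v : ZMod p → ℂ) :
    bd (N := N) Q q (fun z => u z + v z) = fun x => bd Q q u x + bd Q q v x := rfl

theorem bd_sum {p : ℕ} (Q q n : ℕ) (u : ℕ → ZMod p → ℂ) :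
    bd (N := N) Q q (fun z => ∑ s ∈ range n, u s z) =
      fun x => ∑ s ∈ range n, bd Q q (u s) x := rfl

end

theorem al_half (m : ℕ) (c : Fin (m + 1) → ℝ) (s ε : ℝ) (hs0 : 0 < s) (hε : 0 < ε)
    (hT : ArTopC m c s ε) : ∃ x0 : ℝ, 0 < x0 ∧ ∃ C : ℕ, ∃ σ : ℝ, 0 < σ ∧ ∃ D0 : ℝ,
    ∀ (S : Sys (m + 1)) (N : ℕ) [NeZero N] (lam : ℕ), D0 ≤ S.D → IG S c N x0 lam →
    ∀ δ : ℝ, S.D ^ (-σ) ≤ δ → δ ≤ 1 / 2 → (lam : ℝ) ≤ δ⁻¹ →
    ∀ (p : ℕ) [NeZero p], p.Prime → N = S.Q * p → ∀ q : ℕ, 1 ≤ q → (q : ℝ) ≤ δ⁻¹ →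
    ∀ X : ℕ, 1 ≤ X → S.D ^ (s - σ) ≤ (X : ℝ) →
    ∀ q0 : ℕ, 1 ≤ q0 → (X : ℝ) * q0 * (S.Q * q) ≤ S.P (Fin.last m) * S.D ^ (-ε) →
    ∀ (f0 : ZMod N → ℂ) (f : Fin m → ZMod N → ℂ), Adm δ⁻¹ S.Q f0 → (∀ i, Adm δ⁻¹ S.Q (f i)) →
    ∀ (r : ZMod p) (cc : ℕ → ℂ) (φ : ℕ → ℝ), (∀ j, ‖cc j‖ ≤ 1) →
    (∀ j j', |φ j - φ j'| ≤ 1 / 2) →
    δ ≤ ‖form S c 1 f0 (Fin.snoc (α := fun _ => ZMod N → ℂ) f (bd S.Q q (bphase X r cc φ)))‖ →
    ∃ (cc' : ℕ → ℂ) (θ : ℕ → ℝ), (∀ j, cc' j = cc j ∨ cc' j = 0) ∧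
      (∀ j, cc' j ≠ 0 → |φ j - θ (j / q0)| ≤ δ⁻¹ ^ C / X) ∧
      δ ^ C ≤ ‖form S c 1 f0 (Fin.snoc (α := fun _ => ZMod N → ℂ) f
        (bd S.Q q (bphase X r cc' φ)))‖ := by
  obtain ⟨xT, hxT, CT, σT, hσT, DT, HT⟩ := hT
  refine ⟨min xT ε, lt_min hxT hε, 12 * CT + 20, min (σT / 6) (s / 20),
    lt_min (by positivity) (by positivity), max DT (max 4 (4 ^ (2 / s))), ?_⟩
  intro S N _ lam hD hIG δ hδ1 hδ2 hlam p _ hp hN q hq hqδ X hX1 hX q0 hq0 hXq f0 f hf0 hf r cc φ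
    hcc hφd hform
  have hGood := hIG.good
  set σ := min (σT / 6) (s / 20) with hσ
  have hσ0 : 0 < σ := lt_min (by positivity) (by positivity)
  have hσa : 6 * σ ≤ σT := by have := min_le_left (σT / 6) (s / 20); rw [← hσ] at this; linarith
  have hσb : 20 * σ ≤ s := by have := min_le_right (σT / 6) (s / 20); rw [← hσ] at this; linarith
  have hDT : DT ≤ S.D := (le_max_left _ _).trans hD
  have hD4 : 4 ≤ S.D := ((le_max_left _ _).trans (le_max_right _ _)).trans hD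
  have hDs : (4 : ℝ) ^ (2 / s) ≤ S.D := ((le_max_right _ _).trans (le_max_right _ _)).trans hD
  have hD0 : 0 < S.D := by linarith
  have hD1 : 1 ≤ S.D := by linarith
  have hδ0 : 0 < δ := (Real.rpow_pos_of_pos hD0 _).trans_le hδ1
  have hδi : 2 ≤ δ⁻¹ := by
    rw [le_inv_comm₀ (by norm_num) hδ0]
    linarith
  have hδi0 : 0 < δ⁻¹ := by positivity
  -- powers of δ
  have hpow : ∀ (n : ℕ), S.D ^ (-(n * σ)) ≤ δ ^ n := by
    intro n
    have h := pow_le_pow_left₀ (Real.rpow_nonneg hD0.le _) hδ1 n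
    rw [← Real.rpow_natCast (S.D ^ (-σ)) n, ← Real.rpow_mul hD0.le] at h
    refine le_trans (le_of_eq ?_) h
    congr 1
    ring
  have hQ : (S.D : ℝ) ^ (2 : ℝ) ≤ S.Q := hGood.Q1
  have hQ0 : (0 : ℝ) < S.Q := (Real.rpow_pos_of_pos hD0 _).trans_le hQ
  have hX0 : (0 : ℝ) < X := by exact_mod_cast hX1
  have hX0' : (1 : ℝ) ≤ X := by exact_mod_cast hX1
  have hq1 : (1 : ℝ) ≤ q := by exact_mod_cast hq
  -- the size of X
  have h9 : 4 ≤ δ ^ 9 * X := by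
    have h1 := hpow 9
    have h2 : (4 : ℝ) ≤ S.D ^ (s / 2) := by
      have h3 := Real.rpow_le_rpow (by positivity) hDs (by positivity : 0 ≤ s / 2)
      rw [← Real.rpow_mul (by norm_num)] at h3
      have h4 : 2 / s * (s / 2) = 1 := by field_simp
      rwa [h4, Real.rpow_one] at h3
    have h3 : S.D ^ (s / 2) ≤ S.D ^ (-(((9 : ℕ) : ℝ) * σ)) * S.D ^ (s - σ) := by
      rw [← Real.rpow_add hD0]
      refine Real.rpow_le_rpow_of_exponent_le hD1 ?_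
      push_cast
      linarith
    refine h2.trans (h3.trans ?_)
    exact mul_le_mul h1 hX (Real.rpow_nonneg hD0.le _) (by positivity)
  have hX2 : 2 ≤ X := by
    have h1 : δ ^ 9 ≤ 1 := pow_le_one₀ hδ0.le (by linarith)
    have h2 : δ ^ 9 * X ≤ 1 * X := mul_le_mul_of_nonneg_right h1 hX0.le
    have h3 : (2 : ℝ) ≤ X := by linarith
    exact_mod_cast h3
  -- sizes
  have hL : ((X * q0 : ℕ) : ℝ) * (S.Q * q) ≤ S.P (Fin.last m) * S.D ^ (-ε) := by
    push_cast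
    exact hXq
  have hLN : X * q0 * q ≤ p := by
    have h1 := hGood.N1 (Fin.last m)
    have h2 : S.P (Fin.last m) * S.D ^ (-ε) ≤ N * S.D ^ (min xT ε) * S.D ^ (-ε) :=
      mul_le_mul_of_nonneg_right h1 (Real.rpow_nonneg hD0.le _)
    have h3 : (N : ℝ) * S.D ^ (min xT ε) * S.D ^ (-ε) ≤ N := by
      rw [mul_assoc, ← Real.rpow_add hD0]
      have h4 : S.D ^ (min xT ε + -ε) ≤ 1 :=
        Real.rpow_le_one_of_one_le_of_nonpos hD1 (by have := min_le_right xT ε; linarith)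
      exact mul_le_of_le_one_right (Nat.cast_nonneg _) h4
    have h5 := hL.trans (h2.trans h3)
    rw [hN] at h5
    push_cast at h5
    have h6 : (S.Q : ℝ) * (X * q0 * q) ≤ S.Q * p := by linarith
    have h7 := le_of_mul_le_mul_left h6 hQ0
    exact_mod_cast h7
  have hqp : q < p := by
    have h1 : 2 * 1 * q ≤ X * q0 * q := by gcongr
    omega
  have hLp : X * q0 ≤ p := (Nat.le_mul_of_pos_right _ (by omega : 0 < q)).trans hLN
  have hL1 : 1 ≤ X * q0 := Nat.mul_pos hX1 hq0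
  have hXN : X ≤ p := (Nat.le_mul_of_pos_right X hq0).trans hLp
  -- Y
  set Y := ⌊δ ^ 9 * X⌋₊ with hYdef
  have hYle : (Y : ℝ) ≤ δ ^ 9 * X := Nat.floor_le (by positivity)
  have hYge : δ ^ 9 * X - 1 ≤ Y := by
    have := Nat.lt_floor_add_one (δ ^ 9 * X)
    rw [← hYdef] at this
    linarith
  have hY1 : 1 ≤ Y := by
    rw [hYdef, Nat.one_le_floor_iff]
    linarith
  have hY10 : δ ^ 10 * X ≤ Y := by
    have h1 : δ ^ 10 * X = δ * (δ ^ 9 * X) := by ring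
    have h2 : δ * (δ ^ 9 * X) ≤ 1 / 2 * (δ ^ 9 * X) :=
      mul_le_mul_of_nonneg_right hδ2 (by positivity)
    linarith
  have hY0 : (0 : ℝ) < Y := by exact_mod_cast hY1
  -- w0, η
  set w0 : ℝ := δ⁻¹ ^ (6 * CT + 16) / X with hw0def
  have hw0 : 0 < w0 := by positivity
  set η : ℝ := δ ^ (12 * CT + 17) with hηdef
  have hη : 0 < η := by positivity
  have hf0b : ∀ x, ‖f0 x‖ ≤ 1 := hf0.bdd
  have hfb : ∀ i x, ‖f i x‖ ≤ 1 := fun i => (hf i).bdd
  have hδ6i : 64 ≤ (δ ^ 6)⁻¹ := by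
    rw [← inv_pow]
    calc (64 : ℝ) = 2 ^ 6 := by norm_num
      _ ≤ δ⁻¹ ^ 6 := pow_le_pow_left₀ (by norm_num) hδi 6
  have hδ6a : δ⁻¹ ≤ (δ ^ 6)⁻¹ := by
    rw [← inv_pow]
    exact le_self_pow₀ (by linarith) (by norm_num)
  have hδ6i' : δ⁻¹ + δ⁻¹ ≤ (δ ^ 6)⁻¹ := by
    rw [← inv_pow]
    have h1 : δ⁻¹ ^ 2 ≤ δ⁻¹ ^ 6 := pow_le_pow_right₀ (by linarith) (by norm_num)
    have h2 : 2 * δ⁻¹ ≤ δ⁻¹ ^ 2 := by
      rw [sq]
      exact mul_le_mul_of_nonneg_right hδi hδi0.le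
    linarith
  have : Fact p.Prime := ⟨hp⟩
  have hqz : (q : ZMod p) ≠ 0 := by
    rw [Ne, ZMod.natCast_eq_zero_iff]
    intro h
    exact absurd (Nat.le_of_dvd (by omega) h) (by omega)
  have hGb : ∀ y y' : ℕ, ∀ cc' : ℕ → ℂ, (∀ j, ‖cc' j‖ ≤ 1) →
      Adm (δ ^ 6)⁻¹ X (Gf64 X r cc' φ y y') := by
    intro y y' cc' hcc'
    have h1 : Adm 4 (X : ℝ) (Gf64 X r cc' φ y y') :=
      ⟨fun z => norm_gcoef64 hcc' φ y y' _,
        tv_block64 hX1 hXN r (gcoef64 cc' φ y y') fun j => norm_gcoef64 hcc' φ y y' j⟩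
    exact h1.mono (by linarith) hX0 le_rfl
  have hdil : ∀ g : ZMod p → ℂ,
      (fun z : ZMod p => (fun y : ZMod p => g (y * (q : ZMod p)⁻¹)) ((q : ZMod p) * z)) = g := by
    intro g
    funext z
    beta_reduce
    congr 1
    rw [mul_comm (q : ZMod p) z, mul_assoc, mul_inv_cancel₀ hqz, mul_one]
  -- the unpopular part
  have hrest : ‖form S c 1 f0 (Fin.snoc (α := fun _ => ZMod N → ℂ) f
      (bd S.Q q (bphase X r (ccr64 cc φ w0 η q0) φ)))‖ < δ / 2 := by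
    by_contra hcon
    rw [not_lt] at hcon
    have hccr : ∀ j, ‖ccr64 cc φ w0 η q0 j‖ ≤ 1 := norm_ccr64 cc φ w0 η q0 hcc
    have hpos : δ ^ 5 ≤ (δ / 2) ^ 2 - 4 * Y / X - δ ^ 6 := by
      have h1 : 4 * (Y : ℝ) / X ≤ 4 * δ ^ 9 := by
        rw [div_le_iff₀ hX0]
        linarith
      have h2 : δ ^ 9 ≤ δ ^ 2 * (1 / 2) ^ 7 := by
        have h3 : δ ^ 9 = δ ^ 2 * δ ^ 7 := by ring
        rw [h3]
        exact mul_le_mul_of_nonneg_left (pow_le_pow_left₀ hδ0.le hδ2 7) (by positivity)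
      have h3 : δ ^ 6 ≤ δ ^ 2 * (1 / 2) ^ 4 := by
        have h3 : δ ^ 6 = δ ^ 2 * δ ^ 4 := by ring
        rw [h3]
        exact mul_le_mul_of_nonneg_left (pow_le_pow_left₀ hδ0.le hδ2 4) (by positivity)
      have h4 : δ ^ 5 ≤ δ ^ 2 * (1 / 2) ^ 3 := by
        have h3 : δ ^ 5 = δ ^ 2 * δ ^ 3 := by ring
        rw [h3]
        exact mul_le_mul_of_nonneg_left (pow_le_pow_left₀ hδ0.le hδ2 3) (by positivity)
      have h5 : 0 < δ ^ 2 := by positivity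
      have h6 : (δ / 2) ^ 2 = δ ^ 2 / 4 := by ring
      rw [h6]
      norm_num at h2 h3 h4
      linarith
    have hkey := key_st hp S hN hq hqp c f0 hf0b f hfb hX1 hXN r hccr hφd hY1 (X * q0) hw0
      (δ1 := δ / 2) (δ6 := δ ^ 6) (δT := (δ ^ 6) ^ CT) (by positivity) (by positivity)
      (by positivity) ((by positivity : (0 : ℝ) ≤ δ ^ 5).trans hpos) (by
        intro y _ y' _ hyy
        have h1 := HT S N lam hDT (hIG.mono (min_le_left _ _) hD1) (δ ^ 6) (by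
          refine le_trans ?_ (hpow 6)
          exact Real.rpow_le_rpow_of_exponent_le hD1 (by push_cast; linarith)) (by
          refine (pow_le_pow_left₀ hδ0.le hδ2 6).trans (by norm_num))
          (hlam.trans hδ6a) p hp hN q hq (hqδ.trans hδ6a) X hX0' (by
          refine le_trans ?_ hX
          exact Real.rpow_le_rpow_of_exponent_le hD1 (by linarith))
          _ _ (((hf0.shift ((S.Q * q * y : ℕ) : ZMod N)).mul
            (hf0.shift ((S.Q * q * y' : ℕ) : ZMod N)).cnj).mono hδ6i' hQ0 le_rfl)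
          (fun i => (((hf i).shift ((S.Q * q * y : ℕ) : ZMod N)).mul
            ((hf i).shift ((S.Q * q * y' : ℕ) : ZMod N)).cnj).mono hδ6i' hQ0 le_rfl)
          (fun w : ZMod p => Gf64 X r (ccr64 cc φ w0 η q0) φ y y' (w * (q : ZMod p)⁻¹))
          (by
            rw [hdil]
            exact hGb y y' _ hccr)
          hyy (X * q0) hL1 hL
        rwa [hdil] at h1) hcon
    have hr := rest64 cc φ w0 η q0 hX1 hq0 hη.le hw0 rfl hLp r
    have h1 : δ ^ (12 * CT + 10) ≤ ((δ ^ 6) ^ CT * ((δ / 2) ^ 2 - 4 * Y / X - δ ^ 6)) ^ 2 := by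
      have h2 : δ ^ (12 * CT + 10) = ((δ ^ 6) ^ CT * δ ^ 5) ^ 2 := by
        rw [← pow_mul, ← pow_add, ← pow_mul]
        congr 1
        ring
      rw [h2]
      exact pow_le_pow_left₀ (by positivity) (mul_le_mul_of_nonneg_left hpos (by positivity)) 2
    have h2 : (1 / (2 * Y * w0)) ^ 2 ≤ δ ^ (12 * CT + 10) / 16 := by
      have h3 : 2 * δ⁻¹ ^ (6 * CT + 6) ≤ 2 * Y * w0 := by
        have h4 : δ ^ 10 * X * w0 = δ⁻¹ ^ (6 * CT + 6) := by
          rw [hw0def]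
          have h5 : δ⁻¹ ^ (6 * CT + 16) = δ⁻¹ ^ (6 * CT + 6) * δ⁻¹ ^ 10 := by
            rw [← pow_add]
          rw [h5]
          field_simp
        have h6 := mul_le_mul_of_nonneg_right hY10 hw0.le
        rw [h4] at h6
        linarith
      have h4 : 1 / (2 * Y * w0) ≤ δ ^ (6 * CT + 6) / 2 := by
        rw [div_le_div_iff₀ (by positivity) (by norm_num)]
        have h5 : δ ^ (6 * CT + 6) * δ⁻¹ ^ (6 * CT + 6) = 1 := by
          rw [← mul_pow, mul_inv_cancel₀ hδ0.ne', one_pow]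
        have h6 := mul_le_mul_of_nonneg_left h3 (by positivity : (0 : ℝ) ≤ δ ^ (6 * CT + 6))
        linarith
      have h5 := pow_le_pow_left₀ (by positivity) h4 2
      have h6 : (δ ^ (6 * CT + 6) / 2) ^ 2 = δ ^ 2 * δ ^ (12 * CT + 10) / 4 := by
        rw [div_pow, ← pow_mul, ← pow_add]
        congr 1
        · congr 1
          ring
        · norm_num
      rw [h6] at h5
      have h7 : δ ^ 2 ≤ 1 / 4 := (pow_le_pow_left₀ hδ0.le hδ2 2).trans (by norm_num)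
      have h8 : 0 < δ ^ (12 * CT + 10) := by positivity
      have h9 := mul_le_mul_of_nonneg_right h7 h8.le
      linarith
    have h3 : 9 * η ≤ 9 / 128 * δ ^ (12 * CT + 10) := by
      have h4 : η = δ ^ 7 * δ ^ (12 * CT + 10) := by
        rw [hηdef, ← pow_add]
        congr 1
        ring
      have h5 : δ ^ 7 ≤ 1 / 128 := (pow_le_pow_left₀ hδ0.le hδ2 7).trans (by norm_num)
      have h8 : 0 < δ ^ (12 * CT + 10) := by positivity
      rw [h4]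
      have h9 := mul_le_mul_of_nonneg_right h5 h8.le
      linarith
    have h8 : 0 < δ ^ (12 * CT + 10) := by positivity
    linarith
  -- the popular part
  have hsplit : ∀ x, bphase X r cc φ x =
      bphase X r (ccp64 cc φ w0 η q0) φ x + bphase X r (ccr64 cc φ w0 η q0) φ x := by
    intro x
    unfold bphase
    rw [← add_mul, ccp_add_ccr64]
  have hpop : δ / 2 ≤ ‖form S c 1 f0 (Fin.snoc (α := fun _ => ZMod N → ℂ) f
      (bd S.Q q (bphase X r (ccp64 cc φ w0 η q0) φ)))‖ := by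
    have h1 : bphase X r cc φ = fun x =>
      bphase X r (ccp64 cc φ w0 η q0) φ x + bphase X r (ccr64 cc φ w0 η q0) φ x := funext hsplit
    rw [h1, bd_add, form_add64] at hform
    have h2 := hform.trans (norm_add_le _ _)
    linarith
  have hsum : bphase X r (ccp64 cc φ w0 η q0) φ = fun x =>
      ∑ s ∈ range ⌈1 / η⌉₊, bphase X r (ccs64 cc φ w0 η q0 s) φ x := by
    funext x
    unfold bphase
    rw [sum_ccs64 cc φ w0 η q0 hq0 hη, sum_mul]
  rw [hsum, bd_sum] at hpop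
  have hpop2 := hpop.trans (form_sum64 S c f0 f ⌈1 / η⌉₊ fun s =>
    bd S.Q q (bphase X r (ccs64 cc φ w0 η q0 s) φ))
  have hη1 : η ≤ 1 := pow_le_one₀ hδ0.le (by linarith)
  have hceil : ((⌈1 / η⌉₊ : ℕ) : ℝ) ≤ 2 / η := by
    have h1 := Nat.ceil_lt_add_one (by positivity : 0 ≤ 1 / η)
    have h2 : 1 ≤ 1 / η := by rw [le_div_iff₀ hη]; linarith
    have h3 : 2 / η = 1 / η + 1 / η := by ring
    linarith
  obtain ⟨s', hs', hbig⟩ : ∃ s' ∈ range ⌈1 / η⌉₊, δ * η / 4 ≤ ‖form S c 1 f0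
      (Fin.snoc (α := fun _ => ZMod N → ℂ) f
        (bd S.Q q (bphase X r (ccs64 cc φ w0 η q0 s') φ)))‖ := by
    by_contra hcon
    push Not at hcon
    have h0 : (range ⌈1 / η⌉₊).Nonempty := by
      rw [nonempty_range_iff]
      intro h0
      rw [h0] at hpop2
      simp only [range_zero, sum_empty] at hpop2
      linarith
    have h1 := sum_lt_sum_of_nonempty h0 hcon
    rw [sum_const, card_range, nsmul_eq_mul] at h1
    have h2 : (⌈1 / η⌉₊ : ℝ) * (δ * η / 4) ≤ 2 / η * (δ * η / 4) :=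
      mul_le_mul_of_nonneg_right hceil (by positivity)
    have h3 : 2 / η * (δ * η / 4) = δ / 2 := by field_simp; ring
    linarith
  refine ⟨ccs64 cc φ w0 η q0 s', th64 cc φ w0 η q0 s', ccs_cases64 cc φ w0 η q0 s', ?_, ?_⟩
  · intro j hj
    refine (th_close64 cc φ w0 η q0 hq0 hw0 hj).trans ?_
    rw [hw0def]
    refine div_le_div_of_nonneg_right ?_ hX0.le
    exact pow_le_pow_right₀ (by linarith) (by omega)
  · refine le_trans ?_ hbig
    have h1 : δ ^ (12 * CT + 20) = δ ^ 2 * (δ * η) := by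
      rw [hηdef, ← pow_succ', ← pow_add]
      congr 1
      ring
    have h2 : δ ^ 2 ≤ 1 / 4 := (pow_le_pow_left₀ hδ0.le hδ2 2).trans (by norm_num)
    have h3 : 0 < δ * η := by positivity
    rw [h1]
    have h9 := mul_le_mul_of_nonneg_right h2 h3.le
    linarith

/-! ### frequencies modulo one -/

/-- the phase modulo one, on the blocks of the class `b`; constant on the other blocks -/
def phh (b : Bool) (φ : ℕ → ℝ) (j : ℕ) : ℝ :=
  if b then (if Int.fract (φ j) < 1 / 2 then 1 / 2 else Int.fract (φ j))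
  else (if Int.fract (φ j) < 1 / 2 then Int.fract (φ j) else 0)

/-- the coefficients of the blocks of the class `b` -/
def cch (b : Bool) (φ : ℕ → ℝ) (cc : ℕ → ℂ) (j : ℕ) : ℂ :=
  if b then (if Int.fract (φ j) < 1 / 2 then 0 else cc j)
  else (if Int.fract (φ j) < 1 / 2 then cc j else 0)

theorem phh_sub (b : Bool) (φ : ℕ → ℝ) (j j' : ℕ) : |phh b φ j - phh b φ j'| ≤ 1 / 2 := by
  have h : ∀ j, (b = true → 1 / 2 ≤ phh b φ j ∧ phh b φ j ≤ 1) ∧
      (b = false → 0 ≤ phh b φ j ∧ phh b φ j ≤ 1 / 2) := by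
    intro j
    have h1 := Int.fract_nonneg (φ j)
    have h2 := (Int.fract_lt_one (φ j)).le
    unfold phh
    cases b
    · refine ⟨fun h => by simp at h, fun _ => ?_⟩
      rw [if_neg (by simp)]
      split_ifs with h3
      · exact ⟨h1, h3.le⟩
      · exact ⟨le_rfl, by norm_num⟩
    · refine ⟨fun _ => ?_, fun h => by simp at h⟩
      rw [if_pos rfl]
      split_ifs with h3
      · exact ⟨le_rfl, by norm_num⟩
      · exact ⟨not_lt.1 h3, h2⟩
  rw [abs_le]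
  cases b
  · have h1 := (h j).2 rfl
    have h2 := (h j').2 rfl
    constructor <;> linarith [h1.1, h1.2, h2.1, h2.2]
  · have h1 := (h j).1 rfl
    have h2 := (h j').1 rfl
    constructor <;> linarith [h1.1, h1.2, h2.1, h2.2]

theorem cch_cases (b : Bool) (φ : ℕ → ℝ) (cc : ℕ → ℂ) (j : ℕ) :
    cch b φ cc j = cc j ∨ cch b φ cc j = 0 := by
  unfold cch
  cases b
  · rw [if_neg (by simp)]
    split_ifs <;> simp
  · rw [if_pos rfl]
    split_ifs <;> simp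

theorem cch_phh (b : Bool) (φ : ℕ → ℝ) (cc : ℕ → ℂ) {j : ℕ} (h : cch b φ cc j ≠ 0) :
    phh b φ j = Int.fract (φ j) := by
  unfold cch at h
  unfold phh
  cases b
  · rw [if_neg (by simp)] at h ⊢
    split_ifs at h ⊢ with h3
    · rfl
    · exact absurd rfl h
  · rw [if_pos rfl] at h ⊢
    split_ifs at h ⊢ with h3
    · exact absurd rfl h
    · rfl

theorem cch_add (φ : ℕ → ℝ) (cc : ℕ → ℂ) (j : ℕ) :
    cc j = cch false φ cc j + cch true φ cc j := by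
  unfold cch
  simp only [Bool.false_eq_true, if_false, if_true]
  split_ifs <;> simp

theorem e_fract_mul (x : ℝ) (v : ℕ) : e (Int.fract x * v) = e (x * v) := by
  have h1 : x * v = Int.fract x * v + ((⌊x⌋ * (v : ℤ) : ℤ) : ℝ) := by
    have := Int.fract_add_floor x
    push_cast
    rw [← add_mul, this]
  rw [h1, e_add, e_int, mul_one]

theorem bphase_phh {p : ℕ} (X : ℕ) (r : ZMod p) (b : Bool) (φ : ℕ → ℝ) (cc cc' : ℕ → ℂ)
    (h : ∀ j, cc' j ≠ 0 → cch b φ cc j ≠ 0) :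
    bphase X r cc' (phh b φ) = bphase X r cc' φ := by
  funext x
  unfold bphase
  by_cases h0 : cc' ((x - r).val / X) = 0
  · rw [h0, zero_mul, zero_mul]
  · rw [cch_phh b φ cc (h _ h0), e_fract_mul]

theorem al_arith_core (m : ℕ) (c : Fin (m + 1) → ℝ) (s ε : ℝ) (hs0 : 0 < s) (hε : 0 < ε)
    (hT : ArTopC m c s ε) : ∃ x0 : ℝ, 0 < x0 ∧ ∃ C : ℕ, ∃ σ : ℝ, 0 < σ ∧ ∃ D0 : ℝ,
    ∀ (S : Sys (m + 1)) (N : ℕ) [NeZero N] (lam : ℕ), D0 ≤ S.D → IG S c N x0 lam →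
    ∀ δ : ℝ, S.D ^ (-σ) ≤ δ → δ ≤ 1 / 2 → (lam : ℝ) ≤ δ⁻¹ →
    ∀ (p : ℕ) [NeZero p], p.Prime → N = S.Q * p → ∀ q : ℕ, 1 ≤ q → (q : ℝ) ≤ δ⁻¹ →
    ∀ X : ℕ, 1 ≤ X → S.D ^ (s - σ) ≤ (X : ℝ) →
    ∀ q0 : ℕ, 1 ≤ q0 → (X : ℝ) * q0 * (S.Q * q) ≤ S.P (Fin.last m) * S.D ^ (-ε) →
    ∀ (f0 : ZMod N → ℂ) (f : Fin m → ZMod N → ℂ), Adm δ⁻¹ S.Q f0 → (∀ i, Adm δ⁻¹ S.Q (f i)) →
    ∀ (r : ZMod p) (cc : ℕ → ℂ) (φ : ℕ → ℝ), (∀ j, ‖cc j‖ ≤ 1) →
    δ ≤ ‖form S c 1 f0 (Fin.snoc (α := fun _ => ZMod N → ℂ) f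
      (blk S.Q fun y : ZMod p => bphase X r cc φ (y * (q : ZMod p)⁻¹)))‖ →
    ∃ (cc' : ℕ → ℂ) (θ : ℕ → ℝ), (∀ j, cc' j = cc j ∨ cc' j = 0) ∧
      (∀ j, cc' j ≠ 0 → dint (φ j - θ (j / q0)) ≤ δ⁻¹ ^ C / X) ∧
      δ ^ C ≤ ‖form S c 1 f0 (Fin.snoc (α := fun _ => ZMod N → ℂ) f
        (blk S.Q fun y : ZMod p => bphase X r cc' φ (y * (q : ZMod p)⁻¹)))‖ := by
  obtain ⟨x0, hx0, C, σ, hσ, D0, H⟩ := al_half m c s ε hs0 hε hT
  refine ⟨x0, hx0, 2 * C, σ / 2, by positivity, max D0 1, ?_⟩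
  intro S N _ lam hD hIG δ hδ1 hδ2 hlam p _ hp hN q hq hqδ X hX1 hX q0 hq0 hXq f0 f hf0 hf r cc φ
    hcc hform
  have hD1 : 1 ≤ S.D := (le_max_right _ _).trans hD
  have hDp : 0 < S.D := by linarith
  have hδ0 : 0 < δ := (Real.rpow_pos_of_pos hDp _).trans_le hδ1
  have hQ0 : (0 : ℝ) < S.Q := (Real.rpow_pos_of_pos hDp _).trans_le hIG.good.Q1
  have hinv : δ⁻¹ ≤ (δ ^ 2)⁻¹ := by
    rw [← inv_pow]
    have h1 : 1 ≤ δ⁻¹ := by
      rw [le_inv_comm₀ one_pos hδ0]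
      linarith
    exact le_self_pow₀ h1 (by norm_num)
  have hcast : δ ≤ ‖form S c 1 f0 (Fin.snoc (α := fun _ => ZMod N → ℂ) f
      (bd S.Q q (bphase X r cc φ)))‖ := hform
  -- a class with large form
  have hspl : bphase X r cc φ = fun z => bphase X r (cch false φ cc) (phh false φ) z +
      bphase X r (cch true φ cc) (phh true φ) z := by
    rw [bphase_phh X r false φ cc (cch false φ cc) fun j hj => hj,
      bphase_phh X r true φ cc (cch true φ cc) fun j hj => hj]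
    funext z
    unfold bphase
    rw [← add_mul, ← cch_add]
  obtain ⟨b, hb⟩ : ∃ b : Bool, δ / 2 ≤ ‖form S c 1 f0 (Fin.snoc (α := fun _ => ZMod N → ℂ) f
      (bd S.Q q (bphase X r (cch b φ cc) (phh b φ))))‖ := by
    by_contra hcon
    push Not at hcon
    have h1 := hcon false
    have h2 := hcon true
    rw [hspl, bd_add, form_add64] at hcast
    have h3 := hcast.trans (norm_add_le _ _)
    linarith
  have hδδ : δ ^ 2 ≤ δ / 2 := by
    rw [sq]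
    have := mul_le_mul_of_nonneg_left hδ2 hδ0.le
    linarith
  obtain ⟨cc', θ, h1, h2, h3⟩ := H S N lam ((le_max_left _ _).trans hD) hIG (δ ^ 2) (by
      have h := pow_le_pow_left₀ (Real.rpow_nonneg hDp.le _) hδ1 2
      rw [← Real.rpow_natCast (S.D ^ (-(σ / 2))) 2, ← Real.rpow_mul hDp.le] at h
      refine le_trans (le_of_eq ?_) h
      congr 1
      push_cast
      ring) (by
      have := (pow_le_pow_left₀ hδ0.le hδ2 2)
      norm_num at this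
      linarith) (hlam.trans hinv) p hp hN q hq (hqδ.trans hinv) X hX1 (by
      refine le_trans ?_ hX
      exact Real.rpow_le_rpow_of_exponent_le hD1 (by linarith)) q0 hq0 hXq f0 f
    (hf0.mono hinv hQ0 le_rfl) (fun i => (hf i).mono hinv hQ0 le_rfl) r (cch b φ cc) (phh b φ)
    (by
      intro j
      rcases cch_cases b φ cc j with h | h
      · rw [h]
        exact hcc j
      · rw [h, norm_zero]
        exact zero_le_one) (phh_sub b φ) (hδδ.trans hb)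
  have hne : ∀ j, cc' j ≠ 0 → cch b φ cc j ≠ 0 := by
    intro j hj
    rcases h1 j with h | h
    · rwa [h] at hj
    · exact absurd h hj
  refine ⟨cc', θ, ?_, ?_, ?_⟩
  · intro j
    rcases h1 j with h | h
    · rw [h]
      exact cch_cases b φ cc j
    · exact Or.inr h
  · intro j hj
    have h4 := h2 j hj
    rw [cch_phh b φ cc (hne j hj)] at h4
    have h5 : dint (φ j - θ (j / q0)) ≤ |Int.fract (φ j) - θ (j / q0)| := by
      refine (dint_le_abs_sub _ ⌊φ j⌋).trans (le_of_eq ?_)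
      congr 1
      have := Int.fract_add_floor (φ j)
      linarith
    refine h5.trans (h4.trans (le_of_eq ?_))
    rw [← inv_pow, ← pow_mul]
  · rw [bphase_phh X r b φ cc cc' hne, ← pow_mul] at h3
    exact h3

end

end Pool.Agent.Helper91.NX2
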