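import Pool.Agent.Helper67.NX2.Defs
import Pool.Agent.Helper64.NX.LpAlign
import Pool.Agent.Helper40.NX2.IGBasic
import Pool.Agent.Helper55.NX2.AqBasic
import Pool.Agent.Helper82.NX2.Fib

/-!
# Project NX2, module A24, part A: differencing in `x` along progressions
-/

set_option autoImplicit false

open Finset
open scoped BigOperators ComplexConjugate

namespace Pool.Agent.Helper91.NX2

open Pool.Agent.Helper57.NX
open Pool.Agent.Helper67.NX2

noncomputable section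

section
variable {m N : ℕ} [NeZero N]

/-- Cauchy–Schwarz after a short shift of `x` along a progression of difference `st` -/
theorem form_cs_st (S : Sys m) (c : Fin m → ℝ) (f0 : ZMod N → ℂ) (f : Fin m → ZMod N → ℂ)
    (st Y : ℕ) (hY : 1 ≤ Y) :
    ‖form S c 1 f0 f‖ ^ 2 ≤ 𝔼 y ∈ range Y, 𝔼 y' ∈ range Y,
      ‖form S c 1 (fun x => f0 (x + ((st * y : ℕ) : ZMod N)) *
          conj (f0 (x + ((st * y' : ℕ) : ZMod N))))
        (fun i x => f i (x + ((st * y : ℕ) : ZMod N)) *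
          conj (f i (x + ((st * y' : ℕ) : ZMod N))))‖ := by
  set F : ℕ → ZMod N → ℂ := fun k x => f0 x * ∏ i, f i (x + (S.a c i k : ZMod N)) with hF
  have hne : (range Y).Nonempty := nonempty_range_iff.2 (by omega)
  have e1 : form S c 1 f0 f = 𝔼 k ∈ S.I, 𝔼 x : ZMod N, 𝔼 y ∈ range Y,
      F k (x + ((st * y : ℕ) : ZMod N)) := by
    unfold form
    refine expect_congr rfl fun k _ => ?_
    rw [Pi.one_apply, one_mul, expect_comm]
    rw [expect_congr rfl fun (y : ℕ) _ => expect_shift (F k) ((st * y : ℕ) : ZMod N),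
      expect_const hne]
  have e2 : ‖form S c 1 f0 f‖ ^ 2 ≤
      𝔼 k ∈ S.I, 𝔼 x : ZMod N, ‖𝔼 y ∈ range Y, F k (x + ((st * y : ℕ) : ZMod N))‖ ^ 2 := by
    have h1 : ‖form S c 1 f0 f‖ ≤
        𝔼 k ∈ S.I, 𝔼 x : ZMod N, ‖𝔼 y ∈ range Y, F k (x + ((st * y : ℕ) : ZMod N))‖ := by
      rw [e1]
      refine (norm_expect_le5 _ _).trans (expect_le_expect fun k _ => ?_)
      exact norm_expect_le5 _ _
    refine (pow_le_pow_left₀ (norm_nonneg _) h1 2).trans ((sq_expect_le64 _ _).trans ?_)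
    exact expect_le_expect fun k _ => sq_expect_le64 _ _
  have e3 : ((𝔼 k ∈ S.I, 𝔼 x : ZMod N,
        ‖𝔼 y ∈ range Y, F k (x + ((st * y : ℕ) : ZMod N))‖ ^ 2 : ℝ) : ℂ) =
      𝔼 y ∈ range Y, 𝔼 y' ∈ range Y,
        form S c 1 (fun x => f0 (x + ((st * y : ℕ) : ZMod N)) *
          conj (f0 (x + ((st * y' : ℕ) : ZMod N))))
        (fun i x => f i (x + ((st * y : ℕ) : ZMod N)) *
          conj (f i (x + ((st * y' : ℕ) : ZMod N)))) := by
    have h2 : ∀ y y' : ℕ,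
        form S c 1 (fun x => f0 (x + ((st * y : ℕ) : ZMod N)) *
          conj (f0 (x + ((st * y' : ℕ) : ZMod N))))
        (fun i x => f i (x + ((st * y : ℕ) : ZMod N)) *
          conj (f i (x + ((st * y' : ℕ) : ZMod N)))) =
        𝔼 k ∈ S.I, 𝔼 x : ZMod N, F k (x + ((st * y : ℕ) : ZMod N)) *
          conj (F k (x + ((st * y' : ℕ) : ZMod N))) := by
      intro y y'
      unfold form
      refine expect_congr rfl fun k _ => ?_
      rw [Pi.one_apply, one_mul]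
      refine expect_congr rfl fun x _ => ?_
      simp only [hF]
      rw [prod_mul_distrib, map_mul, map_prod]
      have h3 : ∀ (t : ℕ) (i : Fin m), x + (S.a c i k : ZMod N) + (t : ZMod N) =
        x + (t : ZMod N) + (S.a c i k : ZMod N) := fun t i => by ring
      simp_rw [h3]
      ring
    simp_rw [h2]
    push_cast
    have h4 : ∀ k x, ((‖𝔼 y ∈ range Y, F k (x + (st : ZMod N) * (y : ZMod N))‖ : ℂ) ^ 2) =
        𝔼 y ∈ range Y, 𝔼 y' ∈ range Y, F k (x + (st : ZMod N) * (y : ZMod N)) *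
          conj (F k (x + (st : ZMod N) * (y' : ZMod N))) := by
      intro k x
      rw [← norm_sq_expect64]
      push_cast
      rfl
    simp_rw [h4]
    have h6 := expect_comm4_64 S.I (univ : Finset (ZMod N)) (range Y) (range Y)
      (fun (k : ℕ) (x : ZMod N) (y y' : ℕ) =>
        F k (x + (st : ZMod N) * (y : ZMod N)) * conj (F k (x + (st : ZMod N) * (y' : ZMod N))))
    exact h6
  refine e2.trans ?_
  have h5 := congrArg norm e3
  rw [Complex.norm_real] at h5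
  refine (Real.le_norm_self _).trans ?_
  rw [h5]
  refine (norm_expect_le5 _ _).trans (expect_le_expect fun y _ => ?_)
  exact norm_expect_le5 _ _

/-- functions of the block index, dilated by `q⁻¹` -/
def bd {N p : ℕ} (Q q : ℕ) (g : ZMod p → ℂ) : ZMod N → ℂ :=
  blk Q fun y : ZMod p => g (y * (q : ZMod p)⁻¹)

theorem bd_point {p : ℕ} [NeZero p] (hp : p.Prime) {Q q : ℕ} (hN : N = Q * p) (hq : 1 ≤ q)
    (hqp : q < p) (g : ZMod p → ℂ) (e : ℕ) (he : e < Q) (z : ZMod p) :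
    bd (N := N) Q q g ((Q * (q * z.val) + e : ℕ) : ZMod N) = g z := by
  have : Fact p.Prime := ⟨hp⟩
  have hQ : 0 < Q := by omega
  have hq0 : (q : ZMod p) ≠ 0 := by
    rw [Ne, ZMod.natCast_eq_zero_iff]
    intro h
    exact absurd (Nat.le_of_dvd (by omega) h) (by omega)
  unfold bd
  rw [blk_natCast40 hN]
  have h1 : (Q * (q * z.val) + e) / Q = q * z.val := by
    rw [Nat.mul_add_div hQ, Nat.div_eq_of_lt he, add_zero]
  rw [h1]
  congr 1
  rw [Nat.cast_mul, ZMod.natCast_zmod_val, mul_comm (q : ZMod p) z, mul_assoc,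
    mul_inv_cancel₀ hq0, mul_one]

theorem nrm_bd {p : ℕ} [NeZero p] (hp : p.Prime) {Q q : ℕ} (hN : N = Q * p) (hq : 1 ≤ q)
    (hqp : q < p) (g : ZMod p → ℂ) : nrm (bd (N := N) Q q g) = nrm g := by
  have hQ : 0 < Q := by
    rcases Nat.eq_zero_or_pos Q with h | h
    · exact absurd (by rw [hN, h, zero_mul]) (NeZero.ne N)
    · exact h
  have : NeZero Q := ⟨by omega⟩
  unfold nrm
  rw [← expect_fib hp hN hq hqp (fun x => ‖bd (N := N) Q q g x‖)]
  have h1 : ∀ e : Fin Q, 𝔼 z : ZMod p, ‖bd (N := N) Q q g ((Q * (q * z.val) + e : ℕ) : ZMod N)‖ =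
      𝔼 z : ZMod p, ‖g z‖ := by
    intro e
    refine expect_congr rfl fun z _ => ?_
    rw [bd_point hp hN hq hqp g e e.2 z]
  simp_rw [h1]
  exact expect_const univ_nonempty _

theorem bd_shift {p : ℕ} [NeZero p] (hp : p.Prime) {Q q : ℕ} (hN : N = Q * p) (hq : 1 ≤ q)
    (hqp : q < p) (g : ZMod p → ℂ) (x : ZMod N) (y : ℕ) :
    bd (N := N) Q q g (x + ((Q * q * y : ℕ) : ZMod N)) =
      bd (N := N) Q q (fun z => g (z + (y : ZMod p))) x := by
  have : Fact p.Prime := ⟨hp⟩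
  have hQ : 1 ≤ Q := by
    rcases Nat.eq_zero_or_pos Q with h | h
    · exact absurd (by rw [hN, h, zero_mul]) (NeZero.ne N)
    · exact h
  have hq0 : (q : ZMod p) ≠ 0 := by
    rw [Ne, ZMod.natCast_eq_zero_iff]
    intro h
    exact absurd (Nat.le_of_dvd (by omega) h) (by omega)
  unfold bd
  have h1 : ((Q * q * y : ℕ) : ZMod N) = ((Q * ((q * y : ℕ) : ℤ) : ℤ) : ZMod N) := by
    push_cast
    ring
  rw [h1, blk_add hQ hN]
  unfold blk
  beta_reduce
  congr 1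
  push_cast
  rw [add_mul, mul_comm (q : ZMod p) (y : ZMod p), mul_assoc (y : ZMod p), mul_inv_cancel₀ hq0,
    mul_one]

/-- Key lemma: a large form of a block phase gives many pairs of points at distance `< L` with
close frequencies. -/
theorem key_st {p : ℕ} [NeZero p] (hp : p.Prime) (S : Sys (m + 1)) (hN : N = S.Q * p)
    {q : ℕ} (hq : 1 ≤ q) (hqp : q < p) (c : Fin (m + 1) → ℝ) (f0 : ZMod N → ℂ)
    (hf0 : ∀ x, ‖f0 x‖ ≤ 1) (f : Fin m → ZMod N → ℂ) (hf : ∀ i x, ‖f i x‖ ≤ 1)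
    {X : ℕ} (hX : 1 ≤ X) (hXN : X ≤ p) (r : ZMod p) {cc : ℕ → ℂ} (hcc : ∀ j, ‖cc j‖ ≤ 1)
    {φ : ℕ → ℝ} (hφ : ∀ j j', |φ j - φ j'| ≤ 1 / 2) {Y : ℕ} (hY : 1 ≤ Y) (L : ℕ) {w0 : ℝ}
    (hw0 : 0 < w0) {δ1 δ6 δT : ℝ} (hδ1 : 0 ≤ δ1) (hδ6 : 0 ≤ δ6) (hδT : 0 < δT)
    (hpos : 0 ≤ δ1 ^ 2 - 4 * Y / X - δ6)
    (hG : ∀ y < Y, ∀ y' < Y, δ6 ≤ ‖form S c 1
        (fun x => f0 (x + ((S.Q * q * y : ℕ) : ZMod N)) *
          conj (f0 (x + ((S.Q * q * y' : ℕ) : ZMod N))))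
        (Fin.snoc (α := fun _ => ZMod N → ℂ)
          (fun i x => f i (x + ((S.Q * q * y : ℕ) : ZMod N)) *
            conj (f i (x + ((S.Q * q * y' : ℕ) : ZMod N))))
          (bd S.Q q (Gf64 X r cc φ y y')))‖ → δT ≤ nrm (A L (Gf64 X r cc φ y y')))
    (h : δ1 ≤ ‖form S c 1 f0 (Fin.snoc (α := fun _ => ZMod N → ℂ) f
      (bd S.Q q (bphase X r cc φ)))‖) :
    (δT * (δ1 ^ 2 - 4 * Y / X - δ6)) ^ 2 ≤
      (𝔼 z : ZMod p, 𝔼 w ∈ range L, 𝔼 w' ∈ range L,
        ind64 X r cc φ w0 (z + (w : ZMod p)) (z + (w' : ZMod p))) + (1 / (2 * Y * w0)) ^ 2 := by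
  have hY0 : (0 : ℝ) < Y := by exact_mod_cast hY
  have hne : (range Y).Nonempty := nonempty_range_iff.2 (by omega)
  -- step 1
  have h1 := form_cs_st S c f0 (Fin.snoc (α := fun _ => ZMod N → ℂ) f
    (bd S.Q q (bphase X r cc φ))) (S.Q * q) Y hY
  have h2 : ∀ y < Y, ∀ y' < Y,
      ‖form S c 1 (fun x => f0 (x + ((S.Q * q * y : ℕ) : ZMod N)) *
          conj (f0 (x + ((S.Q * q * y' : ℕ) : ZMod N))))
        (fun i x => (Fin.snoc (α := fun _ => ZMod N → ℂ) f (bd S.Q q (bphase X r cc φ)) i)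
            (x + ((S.Q * q * y : ℕ) : ZMod N)) *
          conj ((Fin.snoc (α := fun _ => ZMod N → ℂ) f (bd S.Q q (bphase X r cc φ)) i)
            (x + ((S.Q * q * y' : ℕ) : ZMod N))))‖ ≤
      (δ6 + nrm (A L (Gf64 X r cc φ y y')) / δT) + 4 * Y / X := by
    intro y hy y' hy'
    have e1 : (fun (i : Fin (m + 1)) (x : ZMod N) =>
        (Fin.snoc (α := fun _ => ZMod N → ℂ) f (bd S.Q q (bphase X r cc φ)) i)
            (x + ((S.Q * q * y : ℕ) : ZMod N)) *
          conj ((Fin.snoc (α := fun _ => ZMod N → ℂ) f (bd S.Q q (bphase X r cc φ)) i)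
            (x + ((S.Q * q * y' : ℕ) : ZMod N)))) =
        Fin.snoc (α := fun _ => ZMod N → ℂ)
          (fun i x => f i (x + ((S.Q * q * y : ℕ) : ZMod N)) *
            conj (f i (x + ((S.Q * q * y' : ℕ) : ZMod N))))
          (bd S.Q q fun z => bphase X r cc φ (z + (y : ZMod p)) *
            conj (bphase X r cc φ (z + (y' : ZMod p)))) := by
      funext i
      refine Fin.lastCases ?_ (fun i => ?_) i
      · rw [Fin.snoc_last, Fin.snoc_last]
        funext x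
        rw [bd_shift hp hN hq hqp, bd_shift hp hN hq hqp]
        rfl
      · rw [Fin.snoc_castSucc, Fin.snoc_castSucc]
    rw [e1]
    have hb0 : ∀ x, ‖f0 (x + ((S.Q * q * y : ℕ) : ZMod N)) *
        conj (f0 (x + ((S.Q * q * y' : ℕ) : ZMod N)))‖ ≤ 1 := fun x => by
      rw [norm_mul, Complex.norm_conj]
      exact mul_le_one₀ (hf0 _) (norm_nonneg _) (hf0 _)
    have hb : ∀ (i : Fin m) x, ‖f i (x + ((S.Q * q * y : ℕ) : ZMod N)) *
        conj (f i (x + ((S.Q * q * y' : ℕ) : ZMod N)))‖ ≤ 1 :=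
      fun i x => by
        rw [norm_mul, Complex.norm_conj]
        exact mul_le_one₀ (hf i _) (norm_nonneg _) (hf i _)
    refine (snoc_sub64 S c _ hb0 _ hb _ (bd S.Q q (Gf64 X r cc φ y y'))).trans ?_
    refine add_le_add ?_ ?_
    swap
    · refine le_trans (le_of_eq ?_) (nrm_diff64 hX hXN r hcc φ hy hy')
      exact nrm_bd hp hN hq hqp (fun z => bphase X r cc φ (z + (y : ZMod p)) *
            conj (bphase X r cc φ (z + (y' : ZMod p))) - Gf64 X r cc φ y y' z)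
    by_cases hc : δ6 ≤ ‖form S c 1
        (fun x => f0 (x + ((S.Q * q * y : ℕ) : ZMod N)) *
          conj (f0 (x + ((S.Q * q * y' : ℕ) : ZMod N))))
        (Fin.snoc (α := fun _ => ZMod N → ℂ)
          (fun i x => f i (x + ((S.Q * q * y : ℕ) : ZMod N)) *
            conj (f i (x + ((S.Q * q * y' : ℕ) : ZMod N))))
          (bd S.Q q (Gf64 X r cc φ y y')))‖
    · have h3 := hG y hy y' hy' hc
      have h4 : 1 ≤ nrm (A L (Gf64 X r cc φ y y')) / δT := by rwa [le_div_iff₀ hδT, one_mul]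
      have h5 := norm_form_le_one S c 1 (fun _ => by simp) _ hb0 _
        (snoc_bdd64 hb (u := bd S.Q q (Gf64 X r cc φ y y')) fun x => norm_gcoef64 hcc φ y y' _)
      linarith
    · have h3 : 0 ≤ nrm (A L (Gf64 X r cc φ y y')) / δT := div_nonneg (nrm_nonneg _) hδT.le
      have := not_le.1 hc
      linarith
  -- step 2
  have h3 : δ1 ^ 2 ≤ 𝔼 y ∈ range Y, 𝔼 y' ∈ range Y,
      ((δ6 + nrm (A L (Gf64 X r cc φ y y')) / δT) + 4 * Y / X) := by
    refine (pow_le_pow_left₀ hδ1 h 2).trans (h1.trans ?_)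
    exact expect_le_expect fun y hy => expect_le_expect fun y' hy' =>
      h2 y (mem_range.1 hy) y' (mem_range.1 hy')
  set M := 𝔼 y ∈ range Y, 𝔼 y' ∈ range Y, nrm (A L (Gf64 X r cc φ y y')) with hM
  have h4 : 𝔼 y ∈ range Y, 𝔼 y' ∈ range Y,
      ((δ6 + nrm (A L (Gf64 X r cc φ y y')) / δT) + 4 * Y / X) = δ6 + M / δT + 4 * Y / X := by
    simp_rw [expect_add_distrib, expect_const hne, ← expect_div]
    rfl
  rw [h4] at h3
  have h5 : δT * (δ1 ^ 2 - 4 * Y / X - δ6) ≤ M := by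
    have h6 : δ1 ^ 2 - 4 * Y / X - δ6 ≤ M / δT := by linarith
    rw [le_div_iff₀ hδT] at h6
    linarith
  -- step 3
  have h6 : M ^ 2 ≤ 𝔼 y ∈ range Y, 𝔼 y' ∈ range Y, 𝔼 z : ZMod p,
      ‖A L (Gf64 X r cc φ y y') z‖ ^ 2 := by
    rw [hM]
    refine (sq_expect_le64 _ _).trans (expect_le_expect fun y _ => ?_)
    refine (sq_expect_le64 _ _).trans (expect_le_expect fun y' _ => ?_)
    exact sq_expect_le64 _ _
  have h7 : 𝔼 y ∈ range Y, 𝔼 y' ∈ range Y, 𝔼 z : ZMod p, ‖A L (Gf64 X r cc φ y y') z‖ ^ 2 =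
      𝔼 z : ZMod p, 𝔼 y ∈ range Y, 𝔼 y' ∈ range Y, ‖A L (Gf64 X r cc φ y y') z‖ ^ 2 := by
    rw [expect_comm (s := (univ : Finset (ZMod p))) (t := range Y)]
    exact expect_congr rfl fun y _ => expect_comm _ _ _
  have h8 : 𝔼 z : ZMod p, 𝔼 y ∈ range Y, 𝔼 y' ∈ range Y, ‖A L (Gf64 X r cc φ y y') z‖ ^ 2 ≤
      𝔼 z : ZMod p, 𝔼 w ∈ range L, 𝔼 w' ∈ range L,
        (ind64 X r cc φ w0 (z + (w : ZMod p)) (z + (w' : ZMod p)) + (1 / (2 * Y * w0)) ^ 2) :=
    expect_le_expect fun z _ => expand64 r hcc φ hY L hw0 hφ z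
  have h9 : 𝔼 z : ZMod p, 𝔼 w ∈ range L, 𝔼 w' ∈ range L,
        (ind64 X r cc φ w0 (z + (w : ZMod p)) (z + (w' : ZMod p)) + (1 / (2 * Y * w0)) ^ 2) ≤
      (𝔼 z : ZMod p, 𝔼 w ∈ range L, 𝔼 w' ∈ range L,
        ind64 X r cc φ w0 (z + (w : ZMod p)) (z + (w' : ZMod p))) + (1 / (2 * Y * w0)) ^ 2 := by
    simp_rw [expect_add_distrib]
    refine add_le_add le_rfl ?_
    refine expect_le_of5 _ _ (by positivity) fun z _ => ?_
    refine expect_le_of5 _ _ (by positivity) fun w _ => ?_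
    exact expect_le_of5 _ _ (by positivity) fun w' _ => le_rfl
  refine (pow_le_pow_left₀ (mul_nonneg hδT.le hpos) h5 2).trans (h6.trans ?_)
  rw [h7]
  exact h8.trans h9

end

end

end Pool.Agent.Helper91.NX2
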