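import Pool.Agent.Helper67.NX2.Defs
import Pool.Agent.Helper82.NX.GncC
import Pool.Agent.Helper94.NX2.Round
import Pool.Agent.Helper51.NX.Sweep
import Pool.Agent.Helper40.NX2.IGBasic

/-!
# Project NX2, module A21: iterating the rounds, exact linear values of high differences
-/

set_option autoImplicit false

open Finset
open scoped BigOperators ComplexConjugate

namespace Pool.Agent.Helper91.NX2

open Pool.Agent.Helper57.NX
open Pool.Agent.Helper67.NX2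
open Pool.Agent.Helper82.NX

noncomputable section

/-- `j` rounds, with the filtration. -/
theorem rounds' {m : ℕ} (c : Fin m → ℝ) (γ : ℝ) (R : ℕ) (j : ℕ)
    (hγ : ∀ i : ℕ, i < j → γ - i ≠ 0) (s : ℕ) : ∃ ν s' : ℕ, ∀ n B : ℕ,
    ∃ n' : ℕ, n ≤ n' ∧ ∀ (S : Sys m) (N : ℕ) [NeZero N] (δ Y lam w : ℝ) (M : ℕ),
      Env S N δ M R w n' → 0 < S.Q → 0 ≤ w →
      0 < lam → Y + ν * M ≤ 3 * S.D →
      ∀ (fs : ZMod N → ℂ) (g0 : Phi m) (t : List ((ZMod N → ℂ) × Phi m)), t.length ≤ s →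
        Adm (δ⁻¹ ^ n) S.Q fs → (∀ fp ∈ t, Adm (δ⁻¹ ^ n) S.Q fp.1) →
        Clu S c δ M n (B + ν) (Y + ν * M) γ lam w g0 (t.map Prod.snd) →
        δ ^ n ≤ ‖lform S c 1 ((fs, g0) :: t)‖ →
        ∃ (g0' : Phi m) (t' : List ((ZMod N → ℂ) × Phi m)),
          (∀ fp ∈ t', Adm (δ⁻¹ ^ n) S.Q fp.1) ∧
          (1 ≤ j → ∀ fp ∈ t', fp.1 = fs ∨ fp.1 = fun x => conj (fs x)) ∧ t'.length ≤ s' ∧
          Clu S c δ M n' B Y (γ - j) (lam * (M / S.D) ^ j) w g0' (t'.map Prod.snd) ∧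
          (∀ fp ∈ t', fp.2 - g0' ∈ (VV j : AddSubgroup (Phi m))) ∧
          δ ^ n' ≤ ‖lform S c 1 ((fs, g0') :: t')‖ := by
  induction j with
  | zero =>
    refine ⟨0, s, fun n B => ⟨n, le_rfl, ?_⟩⟩
    intro S N _ δ Y lam w M hE hQ hw hlam hY fs g0 t hts hfs ht hC hl
    refine ⟨g0, t, ht, fun h => absurd h (by norm_num), hts, ?_, ?_, hl⟩
    · simpa using hC
    · intro fp _
      rw [VV_zero]
      trivial
  | succ j ih =>
    obtain ⟨ν₁, s₁, h₁⟩ := ih fun i hi => hγ i (by omega)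
    obtain ⟨ν₂, h₂⟩ := round' c (γ - j) (hγ j (by omega)) R s₁
    refine ⟨ν₁ + ν₂, 2 ^ ν₂, fun n B => ?_⟩
    obtain ⟨n₁, hn₁, h₁⟩ := h₁ n (B + ν₂)
    obtain ⟨n₂, h₂⟩ := h₂ n₁ B
    refine ⟨max n₁ n₂, hn₁.trans (le_max_left _ _), ?_⟩
    intro S N _ δ Y lam w M hE hQ hw hlam hY fs g0 t hts hfs ht hC hl
    have hD : 0 < S.D := lt_of_lt_of_le one_pos hE.D1
    have hδ1 : δ ≤ 1 := hE.δ1.trans (by norm_num)
    have hQ' : (0 : ℝ) < S.Q := by exact_mod_cast hQ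
    have hMpos : (0 : ℝ) < M := lt_of_lt_of_le (pow_pos (inv_pos.mpr hE.δ0) _) hE.M1
    have e1 : Y + ν₂ * M + ν₁ * M = Y + ((ν₁ + ν₂ : ℕ) : ℝ) * M := by push_cast; ring
    have e2 : B + ν₂ + ν₁ = B + (ν₁ + ν₂) := by omega
    obtain ⟨g1, t1, a1, _, a3, a4, av, a5⟩ := h₁ S N δ (Y + ν₂ * M) lam w M
      (Env.mono hE (le_max_left _ _)) hQ hw hlam (by rw [e1]; exact hY) fs g0 t hts hfs ht
      (by rw [e1, e2]; exact hC) hl
    have hlam1 : 0 < lam * (M / S.D) ^ j := by positivity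
    have hY2 : Y + ν₂ * M ≤ 3 * S.D := by
      refine le_trans ?_ hY
      push_cast
      have : (0 : ℝ) ≤ ν₁ * M := by positivity
      linarith
    have hfs1 : Adm (δ⁻¹ ^ n₁) S.Q fs :=
      Helper82.NX.Adm.mono' hfs hQ' (inv_pow_mono hE.δ0 hδ1 hn₁)
    obtain ⟨g2, t2, b1, b2, b3, bv, b4⟩ := h₂ S N δ Y (lam * (M / S.D) ^ j) w M
      (Env.mono hE (le_max_right _ _)) hlam1 hY2 fs g1 t1 j a3 hfs1
      (fun fp hfp => Helper82.NX.Adm.mono' (a1 fp hfp) hQ' (inv_pow_mono hE.δ0 hδ1 hn₁)) a4 av a5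
    have e3 : lam * (M / S.D) ^ j * M / S.D = lam * (M / S.D) ^ (j + 1) := by
      rw [pow_succ]; ring
    have e4 : γ - (j : ℝ) - 1 = γ - ((j + 1 : ℕ) : ℝ) := by push_cast; ring
    rw [e3, e4] at b3
    refine ⟨g2, t2, ?_, fun _ => b1, b2, ?_, bv, ?_⟩
    · intro fp hfp
      rcases b1 fp hfp with h | h
      · rw [h]; exact hfs
      · rw [h]; exact Adm.conj' hfs
    · exact Clu.mono' hE.δ0 hδ1 hD (by positivity) hw b3 (le_max_right _ _)
    · exact (pow_anti hE.δ0 hδ1 (le_max_right _ _)).trans b4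

/-! ### differences of polynomials -/

theorem natDegree_diff (G : Polynomial ℤ) (h : ℤ) (k : ℕ) (hG : G.natDegree ≤ k) :
    (Polynomial.taylor h G - G).natDegree ≤ k - 1 := by
  rw [Polynomial.natDegree_le_iff_coeff_eq_zero]
  intro j hj
  rw [Polynomial.coeff_sub]
  rcases lt_trichotomy j G.natDegree with h1 | h1 | h1
  · omega
  · rw [h1, Polynomial.coeff_taylor_natDegree, Polynomial.coeff_natDegree, sub_self]
  · rw [Polynomial.coeff_eq_zero_of_natDegree_lt h1, Polynomial.coeff_eq_zero_of_natDegree_lt, sub_zero]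
    rw [Polynomial.natDegree_taylor]
    exact h1

theorem dl_poly (F : Polynomial ℤ) (n : ℕ) (hF : F.natDegree ≤ n) (t : List ℕ) :
    ∃ G : Polynomial ℤ, G.natDegree ≤ n - t.length ∧
      ∀ k : ℕ, dl t (fun k : ℕ => F.eval (k : ℤ)) k = G.eval (k : ℤ) := by
  induction t with
  | nil => exact ⟨F, by simpa using hF, fun k => rfl⟩
  | cons h t ih =>
    obtain ⟨G, hG, hGe⟩ := ih
    refine ⟨Polynomial.taylor (h : ℤ) G - G, ?_, ?_⟩
    · have := natDegree_diff G h _ hG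
      simp only [List.length_cons]
      omega
    · intro k
      rw [dl, hGe, hGe, Polynomial.eval_sub, Polynomial.taylor_eval]
      push_cast
      rfl

theorem dl_lin (Q lam r d : ℕ) (t : List ℕ) (ht : d - 1 ≤ t.length) (a : ℕ → ℤ)
    (ha : ∀ k, a k = (Q : ℤ) * ((lam * k + r : ℕ) : ℤ) ^ d) :
    ∃ α β : ℤ, ∀ k : ℕ, dl t a k = Q * (α * k + β) := by
  obtain ⟨G, hG, hGe⟩ := dl_poly ((Polynomial.C (lam : ℤ) * Polynomial.X + Polynomial.C (r : ℤ)) ^ d)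
    d (by
      refine Polynomial.natDegree_pow_le.trans ?_
      have := Polynomial.natDegree_linear_le (a := (lam : ℤ)) (b := (r : ℤ))
      calc d * _ ≤ d * 1 := Nat.mul_le_mul_left _ this
        _ = d := mul_one d) t
  obtain ⟨α, β, hαβ⟩ := Polynomial.exists_eq_X_add_C_of_natDegree_le_one
    (show G.natDegree ≤ 1 by omega)
  refine ⟨α, β, ?_⟩
  have h1 : ∀ t : List ℕ, ∀ k : ℕ, dl t a k = Q * dl t (fun k : ℕ =>
      ((Polynomial.C (lam : ℤ) * Polynomial.X + Polynomial.C (r : ℤ)) ^ d).eval (k : ℤ)) k := by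
    intro t
    induction t with
    | nil =>
      intro k
      rw [dl, dl, ha]
      simp
    | cons h t ih =>
      intro k
      rw [dl, dl, ih, ih]
      ring
  intro k
  rw [h1, hGe, hαβ]
  simp

/-- high differences have exact linear values up to a small error -/
theorem ev_lin {m : ℕ} (c : Fin (m + 1) → ℝ) (n d : ℕ) : ∃ C : ℝ, 0 < C ∧
    ∀ (S : Sys (m + 1)) (M : ℕ) (Pm : ℝ) (lam r : ℕ), 0 ≤ Pm → 1 ≤ S.D → 0 ≤ S.ρ → S.ρ ≤ 1 →
    n * (M : ℝ) ≤ S.D → (∀ i : Fin m, 0 ≤ S.P i.castSucc ∧ S.P i.castSucc ≤ Pm) →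
    (∀ k, S.a c (Fin.last m) k = (S.Q : ℤ) * ((lam * k + r : ℕ) : ℤ) ^ d) →
    ∀ p : Phi (m + 1), Bd M n p → p ∈ (VV (d - 1) : AddSubgroup (Phi (m + 1))) →
    ∃ α β : ℤ, ∀ k : ℕ, S.D ≤ k → (k : ℝ) ≤ 3 * S.D →
      |((ev (S.a c) p k - S.Q * (α * k + β) : ℤ) : ℝ)| ≤ C * (1 + Pm * ((M : ℝ) / S.D) ^ (d - 1)) := by
  classical
  obtain ⟨C, hC, hsm⟩ := ev_small c n (d - 1)
  refine ⟨C, hC, ?_⟩
  intro S M Pm lam r hPm hD hρ0 hρ1 hMD hP ha p hp hpV
  -- the system without the last sequence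
  set S' : Sys (m + 1) := ⟨S.D, S.ρ, S.Q, S.u, S.T, fun i => if i = Fin.last m then 0 else S.P i⟩
    with hS'
  set p1 : Phi (m + 1) := p.filter (fun s => s.2 = Fin.last m) with hp1
  set p2 : Phi (m + 1) := p.filter (fun s => ¬ s.2 = Fin.last m) with hp2
  have hpp : p1 + p2 = p := Finsupp.filter_add_filter_not p _
  have hBd2 : Bd M n p2 := by
    refine ⟨?_, ?_⟩
    · refine le_trans ?_ hp.1
      rw [hp2, Finsupp.support_filter]
      refine le_trans (le_of_eq (Finset.sum_congr rfl fun s hs => ?_))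
        (Finset.sum_le_sum_of_subset (Finset.filter_subset _ _))
      rw [Finsupp.filter_apply_pos (fun s : List ℕ × Fin (m + 1) => ¬ s.2 = Fin.last m) p
        (Finset.mem_filter.1 hs).2]
    · intro s hs
      rw [hp2, Finsupp.support_filter] at hs
      exact hp.2 s (Finset.mem_filter.1 hs).1
  have hV2 : p2 ∈ (VV (d - 1) : AddSubgroup (Phi (m + 1))) := by
    rw [mem_VV5] at hpV ⊢
    intro s hs
    rw [hp2, Finsupp.support_filter] at hs
    exact hpV s (Finset.mem_filter.1 hs).1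
  have hev2 : ∀ k, ev (S.a c) p2 k = ev (S'.a c) p2 k := by
    intro k
    unfold ev Finsupp.sum
    refine Finset.sum_congr rfl fun s hs => ?_
    rw [hp2, Finsupp.support_filter] at hs
    have hne := (Finset.mem_filter.1 hs).2
    have h1 : S.a c s.2 = S'.a c s.2 := by
      funext j
      unfold Sys.a Sys.t
      rw [hS']
      dsimp only
      rw [if_neg hne]
    dsimp only
    rw [h1]
  -- the last sequence
  have hlin : ∀ s ∈ p1.support, ∃ αβ : ℤ × ℤ, ∀ k : ℕ,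
      dl s.1 (S.a c s.2) k = S.Q * (αβ.1 * k + αβ.2) := by
    intro s hs
    rw [hp1, Finsupp.support_filter] at hs
    have h1 := (Finset.mem_filter.1 hs).2
    have h2 := (mem_VV5 _ _).1 hpV s (Finset.mem_filter.1 hs).1
    rw [h1]
    obtain ⟨α, β, h3⟩ := dl_lin S.Q lam r d s.1 h2 (S.a c (Fin.last m)) ha
    exact ⟨(α, β), h3⟩
  choose! F hF using hlin
  refine ⟨∑ s ∈ p1.support, p1 s * (F s).1, ∑ s ∈ p1.support, p1 s * (F s).2, ?_⟩
  intro k hk hk3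
  have hev1 : ev (S.a c) p1 k = S.Q * ((∑ s ∈ p1.support, p1 s * (F s).1) * k +
      ∑ s ∈ p1.support, p1 s * (F s).2) := by
    unfold ev Finsupp.sum
    rw [Finset.sum_mul, ← Finset.sum_add_distrib, Finset.mul_sum]
    refine Finset.sum_congr rfl fun s hs => ?_
    dsimp only
    rw [hF s hs k]
    ring
  have h1 : ev (S.a c) p k = ev (S.a c) p1 k + ev (S'.a c) p2 k := by
    rw [← hev2, ← ev_add5, hpp]
  rw [h1, hev1, add_sub_cancel_left]
  refine hsm S' M Pm hPm hD hρ0 hρ1 hMD ?_ p2 hBd2 hV2 k hk hk3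
  intro i
  rw [hS']
  dsimp only
  split_ifs with h
  · exact ⟨le_rfl, hPm⟩
  · obtain ⟨j, rfl⟩ := Fin.eq_castSucc_of_ne_last h
    exact hP j

end

end Pool.Agent.Helper91.NX2
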